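import Mathlib
import Pool.Agent.Helper449.RC.Torus2

/-!
# Skew translations of the two-dimensional torus
-/

set_option autoImplicit false

open Filter Topology MeasureTheory Set
open scoped ContDiff Manifold

namespace Pool.Agent.Y567.NC

open Pool.Agent.Helper449.RC (T2 toT2 cubeT2 liftT2 toT2_liftT2 cubeT2_apply cubeT2_source
  contMDiff_toT2)
open Pool.Agent.Helper206.Cover (E2)

/-- the circle -/
abbrev AC : Type := AddCircle (1 : ℝ)

instance : MeasurableSpace T2 := inferInstanceAs (MeasurableSpace (Fin 2 → AC))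
instance : BorelSpace T2 := inferInstanceAs (BorelSpace (Fin 2 → AC))
instance : SecondCountableTopology T2 := inferInstanceAs (SecondCountableTopology (Fin 2 → AC))

/-- the normalised Haar measure of the circle -/
noncomputable abbrev hm : Measure AC := AddCircle.haarAddCircle

lemma vol_eq : (volume : Measure AC) = hm := by
  rw [AddCircle.volume_eq_smul_haarAddCircle]
  simp

/-- the normalised Haar measure of the torus -/
noncomputable def nu : Measure T2 := Measure.pi (fun _ : Fin 2 => hm)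

instance : IsProbabilityMeasure nu := inferInstanceAs (IsProbabilityMeasure
  (Measure.pi (fun _ : Fin 2 => hm)))

/-! ### The skew translations -/

/-- the skew translation `(x, y) ↦ (x + c, y + u x)` -/
noncomputable def sk (c : ℝ) (u : ℝ → ℝ) (hu : Function.Periodic u 1) (p : T2) : T2 :=
  (![p 0 + (c : AC), p 1 + ((hu.lift (p 0) : ℝ) : AC)] : Fin 2 → AC)

lemma sk_zero_apply (c : ℝ) (u : ℝ → ℝ) (hu : Function.Periodic u 1) (p : T2) :
    sk c u hu p 0 = p 0 + (c : AC) := rfl

lemma sk_one_apply (c : ℝ) (u : ℝ → ℝ) (hu : Function.Periodic u 1) (p : T2) :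
    sk c u hu p 1 = p 1 + ((hu.lift (p 0) : ℝ) : AC) := rfl

lemma T2_ext {p q : T2} (h0 : p 0 = q 0) (h1 : p 1 = q 1) : p = q := by
  funext i
  fin_cases i
  · exact h0
  · exact h1

/-- the lift of the skew translation -/
noncomputable def skl (c : ℝ) (u : ℝ → ℝ) (v : E2) : E2 :=
  WithLp.toLp 2 ![v 0 + c, v 1 + u (v 0)]

lemma sk_toT2 (c : ℝ) (u : ℝ → ℝ) (hu : Function.Periodic u 1) (v : E2) :
    sk c u hu (toT2 v) = toT2 (skl c u v) := by
  apply T2_ext
  · show ((v 0 : ℝ) : AC) + (c : AC) = (((v 0 + c : ℝ)) : AC)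
    rw [AddCircle.coe_add]
  · show ((v 1 : ℝ) : AC) + ((hu.lift ((v 0 : ℝ) : AC) : ℝ) : AC) = (((v 1 + u (v 0) : ℝ)) : AC)
    rw [AddCircle.coe_add]
    rfl

lemma toT2_surj (p : T2) : ∃ v : E2, toT2 v = p := ⟨liftT2 p, toT2_liftT2 p⟩

lemma per_comp {u v : ℝ → ℝ} (hu : Function.Periodic u 1) (hv : Function.Periodic v 1) (d : ℝ) :
    Function.Periodic (fun x => v x + u (x + d)) 1 := by
  intro x
  show v (x + 1) + u (x + 1 + d) = v x + u (x + d)
  have : x + 1 + d = (x + d) + 1 := by ring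
  rw [hv x, this, hu (x + d)]

lemma sk_comp (c d : ℝ) (u v : ℝ → ℝ) (hu : Function.Periodic u 1) (hv : Function.Periodic v 1)
    (p : T2) : sk c u hu (sk d v hv p) =
      sk (d + c) (fun x => v x + u (x + d)) (per_comp hu hv d) p := by
  obtain ⟨w, rfl⟩ := toT2_surj p
  rw [sk_toT2, sk_toT2, sk_toT2]
  congr 1
  unfold skl
  apply (WithLp.equiv 2 _).injective
  funext i
  fin_cases i
  · show w 0 + d + c = w 0 + (d + c)
    ring
  · show w 1 + v (w 0) + u (w 0 + d) = w 1 + (v (w 0) + u (w 0 + d))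
    ring

lemma sk_congr {c d : ℝ} {u v : ℝ → ℝ} (hu : Function.Periodic u 1) (hv : Function.Periodic v 1)
    (h1 : c = d) (h2 : ∀ x, u x = v x) (p : T2) : sk c u hu p = sk d v hv p := by
  subst h1
  have : u = v := funext h2
  subst this
  rfl

lemma sk_id {u : ℝ → ℝ} (hu : Function.Periodic u 1) (h : ∀ x, u x = 0) (p : T2) :
    sk 0 u hu p = p := by
  obtain ⟨w, rfl⟩ := toT2_surj p
  rw [sk_toT2]
  congr 1
  apply (WithLp.equiv 2 _).injective
  funext i
  fin_cases i
  · show w 0 + 0 = w 0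
    ring
  · show w 1 + u (w 0) = w 1
    rw [h, add_zero]

/-- the inverse cocycle -/
lemma per_inv {u : ℝ → ℝ} (hu : Function.Periodic u 1) (c : ℝ) :
    Function.Periodic (fun x => - u (x - c)) 1 := by
  intro x
  show -u (x + 1 - c) = -u (x - c)
  have : x + 1 - c = (x - c) + 1 := by ring
  rw [this, hu]

lemma sk_left_inv (c : ℝ) (u : ℝ → ℝ) (hu : Function.Periodic u 1) (p : T2) :
    sk (-c) (fun x => - u (x - c)) (per_inv hu c) (sk c u hu p) = p := by
  rw [sk_comp]
  rw [sk_congr (d := 0) (v := fun _ => 0) _ (fun x => rfl) (by ring) (fun x => by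
    have : x + c - c = x := by ring
    show u x + -u (x + c - c) = 0
    rw [this]; ring)]
  exact sk_id _ (fun _ => rfl) p

lemma sk_right_inv (c : ℝ) (u : ℝ → ℝ) (hu : Function.Periodic u 1) (p : T2) :
    sk c u hu (sk (-c) (fun x => - u (x - c)) (per_inv hu c) p) = p := by
  rw [sk_comp]
  rw [sk_congr (d := 0) (v := fun _ => 0) _ (fun x => rfl) (by ring) (fun x => by
    show -u (x - c) + u (x + -c) = 0
    rw [← sub_eq_add_neg]; ring)]
  exact sk_id _ (fun _ => rfl) p

/-! ### Continuity and smoothness -/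

lemma continuous_lift {u : ℝ → ℝ} (hu : Function.Periodic u 1) (hc : Continuous u) :
    Continuous (hu.lift : AC → ℝ) := by
  exact continuous_coinduced_dom.2 hc

lemma continuous_sk {c : ℝ} {u : ℝ → ℝ} (hu : Function.Periodic u 1) (hc : Continuous u) :
    Continuous (sk c u hu) := by
  refine continuous_pi fun i => ?_
  fin_cases i
  · exact (continuous_apply (0 : Fin 2)).add continuous_const
  · exact (continuous_apply (1 : Fin 2)).add
      ((AddCircle.continuous_mk' (1 : ℝ)).comp ((continuous_lift hu hc).comp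
        (continuous_apply (0 : Fin 2))))

lemma contDiff_skl {c : ℝ} {u : ℝ → ℝ} (hc : ContDiff ℝ ∞ u) : ContDiff ℝ ∞ (skl c u) := by
  have h0 : ContDiff ℝ ∞ fun v : E2 => v 0 := by fun_prop
  have h1 : ContDiff ℝ ∞ fun v : E2 => v 1 := by fun_prop
  unfold skl
  refine contDiff_piLp' 2 fun i => ?_
  fin_cases i
  · exact h0.add contDiff_const
  · exact h1.add (hc.comp h0)

lemma contMDiff_sk {c : ℝ} {u : ℝ → ℝ} (hu : Function.Periodic u 1) (hc : ContDiff ℝ ∞ u) :
    ContMDiff 𝓘(ℝ, E2) 𝓘(ℝ, E2) ∞ (sk c u hu) := by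
  intro p
  have hmem : (cubeT2 (liftT2 p)).symm ∈ atlas E2 T2 := ⟨liftT2 p, rfl⟩
  have hmax : (cubeT2 (liftT2 p)).symm ∈ IsManifold.maximalAtlas 𝓘(ℝ, E2) ∞ T2 :=
    IsManifold.subset_maximalAtlas hmem
  have h1 := contMDiffOn_of_mem_maximalAtlas hmax
  have hp : p ∈ (cubeT2 (liftT2 p)).symm.source := mem_chart_source E2 p
  have hnhds := (cubeT2 (liftT2 p)).symm.open_source.mem_nhds hp
  have h2 : ContMDiffAt 𝓘(ℝ, E2) 𝓘(ℝ, E2) ∞
      (fun q => toT2 (skl c u ((cubeT2 (liftT2 p)).symm q))) p :=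
    (contMDiff_toT2 _).comp p (((contDiff_skl hc).contMDiff _).comp p (h1.contMDiffAt hnhds))
  refine h2.congr_of_eventuallyEq ?_
  filter_upwards [hnhds] with q hq
  rw [← sk_toT2 c u hu, ← cubeT2_apply (liftT2 p)]
  congr 1
  exact ((cubeT2 (liftT2 p)).right_inv hq).symm

/-! ### Measure -/

lemma mp_mk (a : ℝ) : MeasurePreserving ((↑) : ℝ → AC) (volume.restrict (Ioo a (a + 1))) hm := by
  have h := AddCircle.measurePreserving_mk 1 a
  rw [vol_eq] at h
  rwa [Measure.restrict_congr_set (Ioo_ae_eq_Ioc (μ := volume) (a := a) (b := a + 1))]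

/-- The projection of an open cube is measure preserving. -/
lemma mp_toT2 (a : E2) : MeasurePreserving toT2 (volume.restrict (cubeT2 a).source) nu := by
  have h1 : MeasurePreserving (fun (x : Fin 2 → ℝ) (i : Fin 2) => ((x i : ℝ) : AC))
      (Measure.pi fun i : Fin 2 => volume.restrict (Ioo (a i - 1 / 2) (a i - 1 / 2 + 1))) nu :=
    measurePreserving_pi _ _ fun i => mp_mk (a i - 1 / 2)
  rw [← Measure.restrict_pi_pi] at h1
  have h2 := (PiLp.volume_preserving_ofLp (Fin 2)).restrict_preimage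
    (s := univ.pi fun i : Fin 2 => Ioo (a i - 1 / 2) (a i - 1 / 2 + 1))
    (MeasurableSet.univ_pi fun i => measurableSet_Ioo)
  have h3 : (cubeT2 a).source = WithLp.ofLp (p := 2) ⁻¹'
      (univ.pi fun i : Fin 2 => Ioo (a i - 1 / 2) (a i - 1 / 2 + 1)) := by
    rw [cubeT2_source]
    ext x
    simp only [mem_preimage, mem_univ_pi, mem_Ioo]
    exact Iff.rfl
  rw [h3]
  exact h1.comp h2

lemma mp_sk {c : ℝ} {u : ℝ → ℝ} (hu : Function.Periodic u 1) (hc : Continuous u) :
    MeasurePreserving (sk c u hu) nu nu := by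
  have h1 : MeasurePreserving (fun p : AC × AC => (p.1 + (c : AC), p.2 + ((hu.lift p.1 : ℝ) : AC)))
      (hm.prod hm) (hm.prod hm) := by
    refine (measurePreserving_add_right hm (c : AC)).skew_product
      (g := fun x y => y + ((hu.lift x : ℝ) : AC)) ?_ ?_
    · have hcc : Continuous fun p : AC × AC => p.2 + ((hu.lift p.1 : ℝ) : AC) :=
        continuous_snd.add ((AddCircle.continuous_mk' (1 : ℝ)).comp
          ((continuous_lift hu hc).comp continuous_fst))
      exact hcc.measurable
    · exact Eventually.of_forall fun x =>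
        (measurePreserving_add_right hm ((hu.lift x : ℝ) : AC)).map_eq
  have h2 := measurePreserving_piFinTwo (fun _ : Fin 2 => hm)
  have h3 : MeasurePreserving (MeasurableEquiv.piFinTwo (fun _ : Fin 2 => AC)).symm
      (hm.prod hm) (Measure.pi (fun _ : Fin 2 => hm)) := h2.symm
  have h4 := (h3.comp h1).comp h2
  have h5 : sk c u hu = ((MeasurableEquiv.piFinTwo (fun _ : Fin 2 => AC)).symm ∘
      fun p : AC × AC => (p.1 + (c : AC), p.2 + ((hu.lift p.1 : ℝ) : AC))) ∘
      (MeasurableEquiv.piFinTwo (fun _ : Fin 2 => AC)) := by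
    funext p
    apply T2_ext <;> rfl
  rw [h5]
  exact h4

/-- the condition on the smooth measure in the charts -/
lemma chart_cond (e : OpenPartialHomeomorph T2 E2) (he : e ∈ atlas E2 T2) :
    Measure.map (⇑e) (nu.restrict e.source) = (volume.restrict e.target) := by
  obtain ⟨a, rfl⟩ := he
  have h1 := mp_toT2 a
  have hs : MeasurableSet (cubeT2 a).source := (cubeT2 a).open_source.measurableSet
  have ht : MeasurableSet (cubeT2 a).target := (cubeT2 a).open_target.measurableSet
  have h2 : nu.restrict (cubeT2 a).target = nu := by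
    rw [Measure.restrict_eq_self_of_ae_mem]
    rw [← h1.map_eq]
    refine (ae_map_iff h1.aemeasurable ht).2 ?_
    filter_upwards [ae_restrict_mem hs] with x hx
    exact (cubeT2 a).map_source hx
  show Measure.map (⇑(cubeT2 a).symm) (nu.restrict (cubeT2 a).target) =
    volume.restrict (cubeT2 a).source
  have h3 : AEMeasurable (⇑(cubeT2 a).symm) nu := by
    rw [← h2]
    exact (cubeT2 a).continuousOn_symm.aemeasurable ht
  rw [h2]
  conv_lhs => rw [← h1.map_eq]
  rw [AEMeasurable.map_map_of_aemeasurable (by rw [h1.map_eq]; exact h3) h1.aemeasurable]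
  have h4 : (⇑(cubeT2 a).symm ∘ toT2) =ᵐ[volume.restrict (cubeT2 a).source] id := by
    filter_upwards [ae_restrict_mem hs] with x hx
    exact (cubeT2 a).left_inv hx
  rw [Measure.map_congr h4, Measure.map_id]

end Pool.Agent.Y567.NC
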