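import Mathlib
import Pool.Agent.Y567.NC.Tor

/-!
# Fourier coefficients on the torus
-/

set_option autoImplicit false

open Filter Topology MeasureTheory Set
open scoped ContDiff Manifold

namespace Pool.Agent.Y567.NC

open Pool.Agent.Helper449.RC (T2 toT2)
open UnitAddTorus

/-- the measure of the torus, as a measure on the function space -/
noncomputable abbrev nu' : Measure (Fin 2 → AC) := Measure.pi (fun _ : Fin 2 => hm)

/-- A square integrable function whose nontrivial Fourier coefficients vanish is constant. -/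
lemma const_of_coeff (f : (Fin 2 → AC) → ℂ) (hf : MemLp f 2 nu')
    (h : ∀ n : Fin 2 → ℤ, n ≠ 0 → ∫ p, mFourier (-n) p * f p ∂nu' = 0)
    (h1 : ∀ n : Fin 2 → ℤ, n ≠ 0 → ∫ p, (mFourier (-n) p : ℂ) ∂nu' = 0) :
    ∃ c : ℂ, f =ᵐ[nu'] fun _ => c := by
  refine ⟨∫ p, f p ∂nu', ?_⟩
  set c : ℂ := ∫ p, f p ∂nu' with hc
  have hg : MemLp (fun _ : Fin 2 → AC => c) 2 nu' := memLp_const c
  have key : hf.toLp f = hg.toLp (fun _ => c) := by
    apply (mFourierBasis (d := Fin 2)).repr.injective
    apply lp.ext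
    funext n
    have e1 := mFourierBasis_repr (hf.toLp f) n
    have e2 := mFourierBasis_repr (hg.toLp (fun _ => c)) n
    rw [e1, e2]
    have e3 : mFourierCoeff (hf.toLp f) n = ∫ p, mFourier (-n) p * f p ∂nu' := by
      refine integral_congr_ae ?_
      filter_upwards [hf.coeFn_toLp] with p hp
      rw [hp, smul_eq_mul]
    have e4 : mFourierCoeff (hg.toLp (fun _ => c)) n = ∫ p, mFourier (-n) p * c ∂nu' := by
      refine integral_congr_ae ?_
      filter_upwards [hg.coeFn_toLp] with p hp
      rw [hp, smul_eq_mul]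
    rw [e3, e4]
    by_cases hn : n = 0
    · subst hn
      simp [mFourier_zero, hc]
    · rw [h n hn, integral_mul_const, h1 n hn, zero_mul]
  have h2 := hf.coeFn_toLp
  have h3 := hg.coeFn_toLp
  rw [key] at h2
  exact h2.symm.trans h3

lemma fourier_shift (m : ℤ) (x : AC) (c : ℝ) :
    (fourier m (x + (c : AC)) : ℂ) = Complex.exp (2 * Real.pi * Complex.I * (m * c)) * fourier m x := by
  induction x using QuotientAddGroup.induction_on with
  | H x =>
    change (fourier m (((x : ℝ) : AC) + (c : AC)) : ℂ) = _ * fourier m ((x : ℝ) : AC)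
    rw [← AddCircle.coe_add, fourier_coe_apply, fourier_coe_apply, ← Complex.exp_add]
    congr 1
    push_cast
    ring

lemma mF_two (n : Fin 2 → ℤ) (p : Fin 2 → AC) :
    (mFourier n p : ℂ) = fourier (n 0) (p 0) * fourier (n 1) (p 1) := by
  simp only [mFourier, ContinuousMap.coe_mk, Fin.prod_univ_two]

/-- vanishing of an integral by a change of variables -/
lemma int_zero {R : T2 → T2} (hR : MeasurePreserving R nu nu) {F g : T2 → ℂ}
    (hFm : AEStronglyMeasurable (fun p => F p * g p) nu) (z : ℂ) (hz : z ≠ 1)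
    (hF : ∀ p, F (R p) = z * F p) (hg : (fun p => g (R p)) =ᵐ[nu] g) :
    ∫ p, F p * g p ∂nu = 0 := by
  have h1 : ∫ p, F p * g p ∂nu = ∫ p, F (R p) * g (R p) ∂nu := by
    conv_lhs => rw [← hR.map_eq]
    exact integral_map hR.aemeasurable (by rw [hR.map_eq]; exact hFm)
  have h2 : ∫ p, F (R p) * g (R p) ∂nu = z * ∫ p, F p * g p ∂nu := by
    rw [← integral_const_mul]
    refine integral_congr_ae ?_
    filter_upwards [hg] with p hp
    rw [hF, hp]
    ring
  rw [h2] at h1
  have h3 : (1 - z) * ∫ p, F p * g p ∂nu = 0 := by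
    rw [sub_mul, one_mul]
    exact sub_eq_zero.2 h1
  rcases mul_eq_zero.1 h3 with h4 | h4
  · exact absurd (sub_eq_zero.1 h4).symm hz
  · exact h4

lemma exp_ne_one {m : ℤ} (hm : m ≠ 0) {c : ℝ} (hc : Irrational c) :
    Complex.exp (2 * Real.pi * Complex.I * (m * c)) ≠ 1 := by
  intro h
  rw [Complex.exp_eq_one_iff] at h
  obtain ⟨k, hk⟩ := h
  have h1 : (2 * Real.pi * Complex.I : ℂ) ≠ 0 := by
    simp [Real.pi_ne_zero]
  have h2 : ((m : ℂ) * (c : ℂ)) = (k : ℂ) := by
    have h3 : (2 * Real.pi * Complex.I : ℂ) * (m * c) = (2 * Real.pi * Complex.I) * k := by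
      rw [hk]; ring
    exact mul_left_cancel₀ h1 h3
  have h3 : (m : ℝ) * c = k := by
    exact_mod_cast h2
  exact (hc.intCast_mul hm).ne_int k h3

/-- Invariant functions of the torus are constant. -/
lemma const_of_inv (c β : ℝ) (u v : ℝ → ℝ) (hu : Function.Periodic u 1) (huc : Continuous u)
    (hv : Function.Periodic v 1) (hvβ : ∀ x, v x = β) (hcI : Irrational c) (hβ : Irrational β)
    (f : T2 → ℂ) (hf : MemLp f 2 nu)
    (h1 : (fun p => f (sk c u hu p)) =ᵐ[nu] f) (h2 : (fun p => f (sk 0 v hv p)) =ᵐ[nu] f) :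
    ∃ c : ℂ, f =ᵐ[nu] fun _ => c := by
  have hvc : Continuous v := by
    have : v = fun _ => β := funext hvβ
    rw [this]
    exact continuous_const
  have key : ∀ g : T2 → ℂ, AEStronglyMeasurable g nu → (fun p => g (sk c u hu p)) =ᵐ[nu] g →
      (fun p => g (sk 0 v hv p)) =ᵐ[nu] g →
      ∀ n : Fin 2 → ℤ, n ≠ 0 → ∫ p, (mFourier (-n) : C(UnitAddTorus (Fin 2), ℂ)) p * g p ∂nu = 0 := by
    intro g hg hg1 hg2 n hn
    have hm : AEStronglyMeasurable
        (fun p : T2 => (mFourier (-n) : C(UnitAddTorus (Fin 2), ℂ)) p * g p) nu := by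
      refine AEStronglyMeasurable.mul ?_ hg
      exact (mFourier (-n) : C(UnitAddTorus (Fin 2), ℂ)).continuous.aestronglyMeasurable
    by_cases hn1 : n 1 = 0
    · have hn0 : n 0 ≠ 0 := by
        intro h0
        apply hn
        funext i
        fin_cases i
        · exact h0
        · exact hn1
      refine int_zero (mp_sk hu huc) hm (Complex.exp (2 * Real.pi * Complex.I * ((-n 0 : ℤ) * c)))
        (exp_ne_one (neg_ne_zero.2 hn0) hcI) ?_ hg1
      intro p
      refine (mF_two (-n) (sk c u hu p)).trans (Eq.trans ?_ (congrArg _ (mF_two (-n) p)).symm)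
      have e0 : (-n) 1 = 0 := by simp [hn1]
      have e1 : (-n) 0 = -n 0 := rfl
      rw [e0, e1, fourier_zero, fourier_zero, sk_zero_apply, fourier_shift]
      ring
    · refine int_zero (mp_sk hv hvc) hm (Complex.exp (2 * Real.pi * Complex.I * ((-n 1 : ℤ) * β)))
        (exp_ne_one (neg_ne_zero.2 hn1) hβ) ?_ hg2
      intro p
      refine (mF_two (-n) (sk 0 v hv p)).trans (Eq.trans ?_ (congrArg _ (mF_two (-n) p)).symm)
      have e0 : (-n) 1 = -n 1 := rfl
      have e1 : sk 0 v hv p 0 = p 0 := by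
        rw [sk_zero_apply]
        simp
      have e2 : sk 0 v hv p 1 = p 1 + (β : AC) := by
        rw [sk_one_apply]
        congr 2
        obtain ⟨w, rfl⟩ := toT2_surj p
        exact hvβ _
      rw [e0, e1, e2, fourier_shift]
      ring
  refine const_of_coeff f hf (key f hf.1 h1 h2) ?_
  intro n hn
  have := key (fun _ => 1) aestronglyMeasurable_const (by rfl) (by rfl) n hn
  simp only [mul_one] at this
  exact this

/-- A criterion for ergodicity. -/
lemma ergodic_of (c β : ℝ) (u v : ℝ → ℝ) (hu : Function.Periodic u 1) (huc : Continuous u)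
    (hv : Function.Periodic v 1) (hvβ : ∀ x, v x = β) (hcI : Irrational c) (hβ : Irrational β)
    (h : ∀ s : Set T2, MeasurableSet s → sk c u hu ⁻¹' s = s → sk 0 v hv ⁻¹' s =ᵐ[nu] s) :
    Ergodic (sk c u hu) nu := by
  refine ⟨mp_sk hu huc, ⟨fun s hs hsT => ?_⟩⟩
  have h1 := h s hs hsT
  set f : T2 → ℂ := s.indicator fun _ => 1 with hf
  have hfm : MemLp f 2 nu := (memLp_const (1 : ℂ)).indicator hs
  obtain ⟨d, hd⟩ := const_of_inv c β u v hu huc hv hvβ hcI hβ f hfm
    (by
      refine Eventually.of_forall fun p => ?_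
      show s.indicator (fun _ => (1 : ℂ)) (sk c u hu p) = s.indicator (fun _ => 1) p
      have : sk c u hu p ∈ s ↔ p ∈ s := by
        conv_rhs => rw [← hsT]
        exact Iff.rfl
      by_cases hp : p ∈ s
      · rw [indicator_of_mem hp, indicator_of_mem (this.2 hp)]
      · rw [indicator_of_notMem hp, indicator_of_notMem (fun h' => hp (this.1 h'))])
    (by
      filter_upwards [h1.mem_iff] with p hp
      show s.indicator (fun _ => (1 : ℂ)) (sk 0 v hv p) = s.indicator (fun _ => 1) p
      have : sk 0 v hv p ∈ s ↔ p ∈ s := hp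
      by_cases hp : p ∈ s
      · rw [indicator_of_mem hp, indicator_of_mem (this.2 hp)]
      · rw [indicator_of_notMem hp, indicator_of_notMem (fun h' => hp (this.1 h'))])
  rw [eventuallyConst_set']
  by_cases hd1 : d = 1
  · right
    filter_upwards [hd] with p hp
    rw [hd1] at hp
    have : p ∈ s := by
      by_contra hps
      rw [hf, indicator_of_notMem hps] at hp
      exact zero_ne_one hp
    exact propext ⟨fun _ => trivial, fun _ => this⟩
  · left
    filter_upwards [hd] with p hp
    have : p ∉ s := by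
      intro hps
      rw [hf, indicator_of_mem hps] at hp
      exact hd1 hp.symm
    exact propext ⟨fun h' => this h', fun h' => absurd h' (notMem_empty p)⟩

end Pool.Agent.Y567.NC
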