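import Mathlib

/-!
# A Liouville number and its multiples
-/

set_option autoImplicit false

open Filter Topology Nat

namespace Pool.Agent.Y567.NC

/-- the rotation number -/
noncomputable def al : ℝ := liouvilleNumber 2

/-- the frequencies -/
def Q (k : ℕ) : ℕ := 2 ^ (k !)

/-- the times -/
def NN (k : ℕ) : ℕ := 2 ^ ((k + 1)! - (k !) - 1)

/-- distance to the integers -/
noncomputable def nr (t : ℝ) : ℝ := |t - round t|

lemma nr_nonneg (t : ℝ) : 0 ≤ nr t := abs_nonneg _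

lemma nr_le (t : ℝ) (z : ℤ) : nr t ≤ |t - z| := round_le t z

lemma nr_le' (t s : ℝ) (z : ℤ) (h : t = z + s) : nr t ≤ |s| := by
  have := nr_le t z
  rwa [h, add_sub_cancel_left, ← h] at this

/-- `α = p / 2 ^ k! + ρ` -/
lemma al_split (k : ℕ) : ∃ p : ℕ, al = p / 2 ^ (k !) + LiouvilleNumber.remainder 2 k := by
  obtain ⟨p, hp⟩ := LiouvilleNumber.partialSum_eq_rat (m := 2) (by norm_num) k
  refine ⟨p, ?_⟩
  have h := LiouvilleNumber.partialSum_add_remainder (m := (2 : ℝ)) (by norm_num) k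
  rw [al, ← h]
  push_cast at hp
  rw [hp]

lemma rem_pos (k : ℕ) : 0 < LiouvilleNumber.remainder 2 k :=
  LiouvilleNumber.remainder_pos (by norm_num) k

lemma rem_le (k : ℕ) : LiouvilleNumber.remainder 2 k ≤ 2 / 2 ^ ((k + 1)!) := by
  have h := (LiouvilleNumber.remainder_lt' k (m := (2 : ℝ)) (by norm_num)).le
  refine h.trans (le_of_eq ?_)
  norm_num
  ring

lemma rem_succ (k : ℕ) : LiouvilleNumber.remainder 2 k =
    1 / 2 ^ ((k + 1)!) + LiouvilleNumber.remainder 2 (k + 1) := by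
  have h1 := LiouvilleNumber.partialSum_add_remainder (m := (2 : ℝ)) (by norm_num) k
  have h2 := LiouvilleNumber.partialSum_add_remainder (m := (2 : ℝ)) (by norm_num) (k + 1)
  rw [LiouvilleNumber.partialSum_succ] at h2
  linarith

/-- multiples of a power of two which is divisible by `2 ^ k!` -/
lemma nr_mul (k n : ℕ) (h : 2 ^ (k !) ∣ n) : nr (n * al) ≤ n * 2 / 2 ^ ((k + 1)!) := by
  obtain ⟨p, hp⟩ := al_split k
  obtain ⟨m, rfl⟩ := h
  have h1 : (((2 ^ (k !) * m : ℕ) : ℝ)) * al = ((m * p : ℕ) : ℤ) +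
      ((2 ^ (k !) * m : ℕ) : ℝ) * LiouvilleNumber.remainder 2 k := by
    rw [hp]
    push_cast
    field_simp
  refine (nr_le' _ _ _ h1).trans ?_
  rw [abs_of_nonneg (mul_nonneg (Nat.cast_nonneg _) (rem_pos k).le), mul_div_assoc]
  exact mul_le_mul_of_nonneg_left (rem_le k) (Nat.cast_nonneg _)

lemma div_bound {a b c : ℕ} (h : a + c ≤ b) : ((2 : ℝ) ^ a) / 2 ^ b ≤ (1 / 2) ^ c := by
  rw [div_le_iff₀ (by positivity), one_div, inv_pow, inv_mul_eq_div, le_div_iff₀ (by positivity),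
    ← pow_add]
  exact pow_le_pow_right₀ (by norm_num) h

lemma fact_gap {j k : ℕ} (h : j < k) : (j !) + j ≤ (k !) := by
  have h1 : (j + 1)! ≤ (k !) := Nat.factorial_le h
  have h2 : (j + 1)! = (j + 1) * (j !) := rfl
  have h3 : 1 ≤ (j !) := Nat.factorial_pos j
  nlinarith

lemma fact_gap1 (k : ℕ) : (k !) + k ≤ (k + 1)! := fact_gap (Nat.lt_succ_self k)

lemma fact_gap2 {k : ℕ} (h : 3 ≤ k) : 2 * (k !) + k + 1 ≤ (k + 1)! := by
  have h2 : (k + 1)! = (k + 1) * (k !) := rfl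
  have h3 : k ≤ (k !) := Nat.self_le_factorial k
  nlinarith

lemma fact_gap3 {j k : ℕ} (h : k < j) (hk : 3 ≤ k) : (k + 1)! + j ≤ j * (j !) := by
  have h1 : (k + 1)! ≤ (j !) := Nat.factorial_le h
  have h3 : j ≤ (j !) := Nat.self_le_factorial j
  nlinarith

lemma NN_dvd {k : ℕ} (hk : 3 ≤ k) : 2 ^ (k !) ∣ NN k := by
  apply pow_dvd_pow
  have := fact_gap2 hk
  omega

lemma cast_Q (k : ℕ) : ((Q k : ℕ) : ℝ) = 2 ^ (k !) := by simp [Q]

lemma cast_NN (k : ℕ) : ((NN k : ℕ) : ℝ) = 2 ^ ((k + 1)! - (k !) - 1) := by simp [NN]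

/-- estimate for large frequencies -/
lemma nr_high (j n : ℕ) : nr (Q j * n * al) ≤ n * 2 / 2 ^ (j * (j !)) := by
  have h := nr_mul j (Q j * n) (Dvd.intro _ rfl)
  push_cast at h
  refine h.trans (le_of_eq ?_)
  have h2 : (j + 1)! = j * (j !) + (j !) := by
    rw [Nat.factorial_succ]
    ring
  rw [cast_Q, h2, pow_add]
  field_simp

/-- estimate for small frequencies -/
lemma nr_low (j k n : ℕ) (h : 2 ^ (k !) ∣ n) :
    nr (Q j * n * al) ≤ Q j * n * 2 / 2 ^ ((k + 1)!) := by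
  have h := nr_mul k (Q j * n) (h.mul_left _)
  push_cast at h
  exact h

lemma M_bound {j k : ℕ} (hk : 3 ≤ k) : nr (Q j * Q k * al) ≤ (1 / 2) ^ j := by
  have h2 := fact_gap2 hk
  rcases le_or_gt j k with hjk | hjk
  · refine (nr_low j k (Q k) dvd_rfl).trans ?_
    rw [cast_Q, cast_Q, ← pow_add, ← pow_succ]
    apply div_bound
    have h1 : (j !) ≤ (k !) := Nat.factorial_le hjk
    omega
  · refine (nr_high j (Q k)).trans ?_
    rw [cast_Q, ← pow_succ]
    apply div_bound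
    have h1 := fact_gap3 hjk hk
    omega

lemma M_small (j : ℕ) {k : ℕ} (hk : 3 ≤ k) : nr (Q j * Q k * al) ≤ 2 ^ (j !) * (1 / 2) ^ k := by
  refine (nr_low j k (Q k) dvd_rfl).trans ?_
  rw [cast_Q, cast_Q, mul_assoc, ← pow_succ, mul_div_assoc]
  refine mul_le_mul_of_nonneg_left (div_bound ?_) (by positivity)
  have h2 := fact_gap2 hk
  omega

lemma N_bound {j k : ℕ} (hk : 3 ≤ k) (hjk : j ≠ k) : nr (Q j * NN k * al) ≤ (1 / 2) ^ j := by
  have h2 := fact_gap2 hk
  rcases lt_or_gt_of_ne hjk with hjk | hjk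
  · refine (nr_low j k (NN k) (NN_dvd hk)).trans ?_
    rw [cast_Q, cast_NN, ← pow_add, ← pow_succ]
    apply div_bound
    have h1 := fact_gap hjk
    omega
  · refine (nr_high j (NN k)).trans ?_
    rw [cast_NN, ← pow_succ]
    apply div_bound
    have h1 := fact_gap3 hjk hk
    omega

lemma N_small {j k : ℕ} (hk : 3 ≤ k) (_hjk : j < k) :
    nr (Q j * NN k * al) ≤ 2 ^ (j !) * (1 / 2) ^ k := by
  refine (nr_low j k (NN k) (NN_dvd hk)).trans ?_
  rw [cast_Q, cast_NN, mul_assoc, ← pow_succ, mul_div_assoc]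
  refine mul_le_mul_of_nonneg_left (div_bound ?_) (by positivity)
  have h2 := fact_gap2 hk
  have h3 : k ≤ (k !) := Nat.self_le_factorial k
  omega

lemma N_half {k : ℕ} (hk : 3 ≤ k) : nr (Q k * NN k * al - 1 / 2) ≤ (1 / 2) ^ k := by
  obtain ⟨p, hp⟩ := al_split k
  obtain ⟨m, hm⟩ := NN_dvd hk
  have e1 : ((NN k : ℕ) : ℝ) = 2 ^ (k !) * m := by rw [hm]; push_cast; ring
  have e3 : ((2 : ℝ) ^ (k !)) * 2 ^ ((k + 1)! - (k !) - 1) * 2 = 2 ^ ((k + 1)!) := by
    rw [← pow_add, ← pow_succ]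
    congr 1
    have := fact_gap2 hk
    omega
  have h1 : (Q k : ℝ) * NN k * al - 1 / 2 = ((Q k * m * p : ℕ) : ℤ) +
      Q k * NN k * LiouvilleNumber.remainder 2 (k + 1) := by
    rw [hp, rem_succ k]
    have e2 : (Q k : ℝ) * NN k * (p / 2 ^ (k !)) = Q k * m * p := by
      rw [e1]
      field_simp
    have e4 : (Q k : ℝ) * NN k * (1 / 2 ^ ((k + 1)!)) = 1 / 2 := by
      rw [cast_Q, cast_NN, ← e3]
      field_simp
    push_cast
    linear_combination e2 + e4
  refine (nr_le' _ _ _ h1).trans ?_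
  rw [abs_of_nonneg (mul_nonneg (by positivity) (rem_pos _).le)]
  refine (mul_le_mul_of_nonneg_left (rem_le (k + 1)) (by positivity)).trans ?_
  rw [cast_Q, cast_NN, mul_div_assoc', e3]
  apply div_bound
  have := fact_gap1 (k + 1)
  omega

/-- the first coordinate at the times `Q k` -/
lemma Q0 {k : ℕ} (hk : 3 ≤ k) : nr (Q k * al) ≤ (1 / 2) ^ k := by
  have h := nr_mul k (Q k) dvd_rfl
  refine h.trans ?_
  rw [cast_Q, ← pow_succ]
  apply div_bound
  have := fact_gap2 hk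
  omega

/-- the first coordinate at the times `NN k` -/
lemma N0 {k : ℕ} (hk : 3 ≤ k) : nr (NN k * al) ≤ (1 / 2) ^ k := by
  have h := nr_mul k (NN k) (NN_dvd hk)
  refine h.trans ?_
  rw [cast_NN, ← pow_succ]
  apply div_bound
  have := fact_gap2 hk
  have h3 : k ≤ (k !) := Nat.self_le_factorial k
  omega

lemma al_irr : Irrational al :=
  (liouville_liouvilleNumber (m := 2) le_rfl).irrational

/-! ### Sums over all frequencies -/

lemma geo_summable : Summable fun j : ℕ => ((1 : ℝ) / 2) ^ j :=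
  summable_geometric_of_lt_one (by norm_num) (by norm_num)

lemma tendsto_half (c : ℝ) : Tendsto (fun k : ℕ => c * ((1 : ℝ) / 2) ^ k) atTop (𝓝 0) := by
  have := (tendsto_pow_atTop_nhds_zero_of_lt_one (r := (1 : ℝ) / 2) (by norm_num)
    (by norm_num)).const_mul c
  simpa using this

/-- all frequencies are small at the times `Q k` -/
lemma M_sum : Tendsto (fun k => ∑' j, nr (Q j * Q k * al)) atTop (𝓝 0) := by
  have h := tendsto_tsum_of_dominated_convergence (𝓕 := atTop)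
    (f := fun (k j : ℕ) => nr (Q j * Q k * al)) (g := fun _ => (0 : ℝ)) geo_summable ?_ ?_
  · simpa using h
  · intro j
    refine squeeze_zero' (Eventually.of_forall fun k => nr_nonneg _) ?_ (tendsto_half (2 ^ (j !)))
    filter_upwards [eventually_ge_atTop 3] with k hk using M_small j hk
  · filter_upwards [eventually_ge_atTop 3] with k hk
    intro j
    rw [Real.norm_of_nonneg (nr_nonneg _)]
    exact M_bound hk

lemma M_summable {k : ℕ} (hk : 3 ≤ k) : Summable fun j => nr (Q j * Q k * al) :=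
  Summable.of_nonneg_of_le (fun _ => nr_nonneg _) (fun _ => M_bound hk) geo_summable

/-- all frequencies except one are small at the times `NN k` -/
lemma N_sum : Tendsto (fun k => ∑' j, if j = k then 0 else nr (Q j * NN k * al)) atTop (𝓝 0) := by
  have h := tendsto_tsum_of_dominated_convergence (𝓕 := atTop)
    (f := fun (k j : ℕ) => if j = k then 0 else nr (Q j * NN k * al)) (g := fun _ => (0 : ℝ))
    geo_summable ?_ ?_
  · simpa using h
  · intro j
    refine squeeze_zero' (Eventually.of_forall fun k => ?_) ?_ (tendsto_half (2 ^ (j !)))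
    · split_ifs
      · exact le_rfl
      · exact nr_nonneg _
    · filter_upwards [eventually_ge_atTop 3, eventually_gt_atTop j] with k hk hjk
      rw [if_neg hjk.ne]
      exact N_small hk hjk
  · filter_upwards [eventually_ge_atTop 3] with k hk
    intro j
    split_ifs with h
    · simp
    · rw [Real.norm_of_nonneg (nr_nonneg _)]
      exact N_bound hk h

lemma N_summable {k : ℕ} (hk : 3 ≤ k) :
    Summable fun j => if j = k then 0 else nr (Q j * NN k * al) := by
  refine Summable.of_nonneg_of_le (fun j => ?_) (fun j => ?_) geo_summable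
  · split_ifs
    · exact le_rfl
    · exact nr_nonneg _
  · split_ifs with h
    · positivity
    · exact N_bound hk h

/-! ### The vertical translation number -/

/-- the coefficients of the vertical translation number -/
noncomputable def cf (k : ℕ) : ℝ := (⌊(2 : ℝ) ^ k * √2⌋₊ : ℝ) / 2 ^ k

lemma cf_nonneg (k : ℕ) : 0 ≤ cf k := by unfold cf; positivity

lemma cf_le (k : ℕ) : cf k ≤ 2 := by
  unfold cf
  rw [div_le_iff₀ (by positivity)]
  refine (Nat.floor_le (by positivity)).trans ?_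
  rw [mul_comm]
  refine mul_le_mul_of_nonneg_right ?_ (by positivity)
  have : √2 ≤ √4 := Real.sqrt_le_sqrt (by norm_num)
  have h4 : √4 = 2 := by
    rw [show (4 : ℝ) = 2 ^ 2 by norm_num, Real.sqrt_sq (by norm_num)]
  rwa [h4] at this

lemma cf_tendsto : Tendsto cf atTop (𝓝 √2) := by
  have h1 := (tendsto_nat_floor_mul_div_atTop (R := ℝ) (a := √2) (by positivity)).comp
    (tendsto_pow_atTop_atTop_of_one_lt (r := (2 : ℝ)) (by norm_num))
  refine h1.congr fun k => ?_
  simp only [Function.comp, cf, mul_comm]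

/-- the vertical translation number -/
noncomputable def ga : ℝ := ∑' k : ℕ, cf k / 2 ^ (k !)

lemma cf_term_le (k : ℕ) : cf k / 2 ^ (k !) ≤ 2 * (1 / 2 ^ (k !)) := by
  rw [mul_one_div]
  exact div_le_div_of_nonneg_right (cf_le k) (by positivity)

lemma ga_summable : Summable fun k : ℕ => cf k / 2 ^ (k !) :=
  Summable.of_nonneg_of_le (fun k => div_nonneg (cf_nonneg k) (by positivity)) cf_term_le
    ((LiouvilleNumber.summable (m := (2 : ℝ)) (by norm_num)).mul_left 2)

/-- the tail of the series -/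
lemma ga_split (k : ℕ) : ∃ t : ℝ, 0 ≤ t ∧ t ≤ 2 * LiouvilleNumber.remainder 2 k ∧
    ga = (∑ i ∈ Finset.range (k + 1), cf i / 2 ^ (i !)) + t := by
  refine ⟨∑' i, cf (i + (k + 1)) / 2 ^ ((i + (k + 1))!), ?_, ?_, ?_⟩
  · exact tsum_nonneg fun i => div_nonneg (cf_nonneg _) (by positivity)
  · have h1 : Summable fun i : ℕ => cf (i + (k + 1)) / 2 ^ ((i + (k + 1))!) :=
      (summable_nat_add_iff (f := fun k : ℕ => cf k / (2 : ℝ) ^ (k !)) (k + 1)).2 ga_summable
    have h2 : Summable fun i : ℕ => 2 * (1 / (2 : ℝ) ^ ((i + (k + 1))!)) :=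
      (LiouvilleNumber.remainder_summable (m := (2 : ℝ)) (by norm_num) k).mul_left 2
    have h3 := Summable.tsum_le_tsum (fun i => cf_term_le (i + (k + 1))) h1 h2
    refine h3.trans (le_of_eq ?_)
    rw [tsum_mul_left]
    rfl
  · exact (ga_summable.sum_add_tsum_nat_add (k + 1)).symm

lemma cf_int {i n : ℕ} (h : (i !) + i ≤ n) : ∃ z : ℕ, (2 : ℝ) ^ n * (cf i / 2 ^ (i !)) = z := by
  refine ⟨2 ^ (n - ((i !) + i)) * ⌊(2 : ℝ) ^ i * √2⌋₊, ?_⟩
  have e : (2 : ℝ) ^ n = 2 ^ (n - ((i !) + i)) * (2 ^ (i !) * 2 ^ i) := by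
    rw [← pow_add, ← pow_add]
    congr 1
    omega
  rw [e, cf]
  push_cast
  field_simp

lemma sum_int {k n : ℕ} (h : ∀ i < k, (i !) + i ≤ n) :
    ∃ z : ℕ, (2 : ℝ) ^ n * (∑ i ∈ Finset.range k, cf i / 2 ^ (i !)) = z := by
  induction k with
  | zero => exact ⟨0, by simp⟩
  | succ k ih =>
    obtain ⟨z, hz⟩ := ih fun i hi => h i (by omega)
    obtain ⟨w, hw⟩ := cf_int (h k (by omega))
    refine ⟨z + w, ?_⟩
    rw [Finset.sum_range_succ, mul_add, hz, hw]
    push_cast
    ring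

lemma Q_ga (k : ℕ) : nr (Q k * ga - √2) ≤ |cf k - √2| + 4 * (1 / 2) ^ k := by
  obtain ⟨t, ht0, ht, hg⟩ := ga_split k
  obtain ⟨z, hz⟩ := sum_int (k := k) (n := k !) fun i hi => fact_gap hi
  have h1 : (Q k : ℝ) * ga - √2 = ((z : ℕ) : ℤ) + ((cf k - √2) + Q k * t) := by
    rw [hg, Finset.sum_range_succ, mul_add, mul_add, cast_Q, hz]
    have : (2 : ℝ) ^ (k !) * (cf k / 2 ^ (k !)) = cf k := by field_simp
    rw [this]
    push_cast
    ring
  refine (nr_le' _ _ _ h1).trans ((abs_add_le _ _).trans (add_le_add le_rfl ?_))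
  rw [abs_of_nonneg (mul_nonneg (Nat.cast_nonneg _) ht0)]
  refine (mul_le_mul_of_nonneg_left (ht.trans (mul_le_mul_of_nonneg_left (rem_le k)
    (by norm_num))) (Nat.cast_nonneg _)).trans ?_
  have h2 := div_bound (a := k !) (b := (k + 1)!) (c := k) (by have := fact_gap1 k; omega)
  rw [cast_Q]
  calc (2 : ℝ) ^ (k !) * (2 * (2 / 2 ^ ((k + 1)!))) = 4 * (2 ^ (k !) / 2 ^ ((k + 1)!)) := by ring
    _ ≤ _ := mul_le_mul_of_nonneg_left h2 (by norm_num)

lemma N_ga {k : ℕ} (hk : 4 ≤ k) : nr (NN k * ga) ≤ 4 * (1 / 2) ^ k := by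
  obtain ⟨t, ht0, ht, hg⟩ := ga_split k
  have hg2 : 2 * (k !) + k + 1 ≤ (k + 1)! := fact_gap2 (by omega)
  have hint : ∀ i < k + 1, (i !) + i ≤ (k + 1)! - (k !) - 1 := by
    intro i hi
    have h1 : (i !) ≤ (k !) := Nat.factorial_le (by omega)
    omega
  obtain ⟨z, hz⟩ := sum_int hint
  have h1 : (NN k : ℝ) * ga = ((z : ℕ) : ℤ) + NN k * t := by
    rw [hg, mul_add, cast_NN, hz]
    push_cast
    ring
  refine (nr_le' _ _ _ h1).trans ?_
  rw [abs_of_nonneg (mul_nonneg (Nat.cast_nonneg _) ht0)]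
  refine (mul_le_mul_of_nonneg_left (ht.trans (mul_le_mul_of_nonneg_left (rem_le k)
    (by norm_num))) (Nat.cast_nonneg _)).trans ?_
  have h2 := div_bound (a := (k + 1)! - (k !) - 1) (b := (k + 1)!) (c := k) (by
    have h3 : k ≤ (k !) := Nat.self_le_factorial k
    omega)
  rw [cast_NN]
  calc (2 : ℝ) ^ ((k + 1)! - (k !) - 1) * (2 * (2 / 2 ^ ((k + 1)!))) =
      4 * (2 ^ ((k + 1)! - (k !) - 1) / 2 ^ ((k + 1)!)) := by ring
    _ ≤ _ := mul_le_mul_of_nonneg_left h2 (by norm_num)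

lemma Q_ga_tendsto : Tendsto (fun k => nr (Q k * ga - √2)) atTop (𝓝 0) := by
  have h1 : Tendsto (fun k : ℕ => |cf k - √2| + 4 * ((1 : ℝ) / 2) ^ k) atTop (𝓝 (0 + 0)) := by
    refine Tendsto.add ?_ (tendsto_half 4)
    have := (cf_tendsto.sub_const √2).abs
    simpa using this
  rw [add_zero] at h1
  exact squeeze_zero (fun k => nr_nonneg _) Q_ga h1

end Pool.Agent.Y567.NC
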