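import Mathlib
import Pool.Agent.Y567.NC.Num

/-!
# The cocycles
-/

set_option autoImplicit false

open Filter Topology Nat
open scoped ContDiff

namespace Pool.Agent.Y567.NC

/-! ### Elementary estimates -/

lemma abs_cos_sub_cos_le (u v : ℝ) : |Real.cos u - Real.cos v| ≤ |u - v| := by
  rw [Real.cos_sub_cos, abs_mul, abs_mul]
  have h1 := Real.abs_sin_le_one ((u + v) / 2)
  have h2 : |Real.sin ((u - v) / 2)| ≤ |(u - v) / 2| := Real.abs_sin_le_abs
  have h3 : |(u - v) / 2| = |u - v| / 2 := by rw [abs_div]; norm_num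
  rw [h3] at h2
  have h4 : |(-2 : ℝ)| = 2 := by norm_num
  rw [h4]
  nlinarith [abs_nonneg (Real.sin ((u + v) / 2)), abs_nonneg (Real.sin ((u - v) / 2))]

lemma cos_nr (y t : ℝ) :
    |Real.cos (2 * Real.pi * (y + t)) - Real.cos (2 * Real.pi * y)| ≤ 2 * Real.pi * nr t := by
  have h1 : Real.cos (2 * Real.pi * (y + t)) = Real.cos (2 * Real.pi * (y + (t - round t))) := by
    have : 2 * Real.pi * (y + t) = 2 * Real.pi * (y + (t - round t)) + round t * (2 * Real.pi) := by
      ring
    rw [this, Real.cos_add_int_mul_two_pi]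
  rw [h1]
  refine (abs_cos_sub_cos_le _ _).trans (le_of_eq ?_)
  have : 2 * Real.pi * (y + (t - round t)) - 2 * Real.pi * y = 2 * Real.pi * (t - round t) := by
    ring
  rw [this, abs_mul, abs_of_pos (by positivity)]
  rfl

/-- the derivatives of a sinusoid -/
lemma iter_sin (c w : ℝ) (n : ℕ) : ∀ d : ℝ, iteratedDeriv n (fun x : ℝ => c * Real.sin (w * x + d)) =
    fun x => (w ^ n * c) * Real.sin (w * x + (d + n * (Real.pi / 2))) := by
  induction n with
  | zero =>
    intro d
    funext x
    simp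
  | succ n ih =>
    intro d
    rw [iteratedDeriv_succ, ih d]
    funext x
    have h1 : HasDerivAt (fun x : ℝ => w * x + (d + n * (Real.pi / 2))) w x := by
      simpa using ((hasDerivAt_id x).const_mul w).add_const (d + n * (Real.pi / 2))
    have h2 := (h1.sin.const_mul (w ^ n * c)).deriv
    rw [h2]
    have h3 : Real.sin (w * x + (d + ((n + 1 : ℕ) : ℝ) * (Real.pi / 2))) =
        Real.cos (w * x + (d + n * (Real.pi / 2))) := by
      rw [← Real.sin_add_pi_div_two]
      congr 1
      push_cast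
      ring
    rw [h3]
    ring

lemma norm_iter_sin (c w d : ℝ) (n : ℕ) (x : ℝ) :
    ‖iteratedFDeriv ℝ n (fun x : ℝ => c * Real.sin (w * x + d)) x‖ ≤ |w| ^ n * |c| := by
  rw [norm_iteratedFDeriv_eq_norm_iteratedDeriv, iter_sin, Real.norm_eq_abs, abs_mul, abs_mul,
    abs_pow]
  have := Real.abs_sin_le_one (w * x + (d + n * (Real.pi / 2)))
  have h0 : 0 ≤ |w| ^ n * |c| := by positivity
  nlinarith

/-! ### The cocycles -/

/-- the increment of the frequency `j` after time `n` -/
noncomputable def inc (j n : ℕ) (x : ℝ) : ℝ :=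
  Real.cos (2 * Real.pi * (Q j * (x + n * al))) - Real.cos (2 * Real.pi * (Q j * x))

/-- the Birkhoff sums of the cocycle with amplitudes `A` -/
noncomputable def S (A : ℕ → ℝ) (n : ℕ) (x : ℝ) : ℝ := n * ga + ∑' j, A j * inc j n x

lemma abs_inc (j n : ℕ) (x : ℝ) : |inc j n x| ≤ 2 * Real.pi * nr (Q j * n * al) := by
  have h := cos_nr (Q j * x) (Q j * n * al)
  have : (Q j : ℝ) * x + Q j * n * al = Q j * (x + n * al) := by ring
  rwa [this] at h

lemma nr_high_summable (n : ℕ) : Summable fun j => nr (Q j * n * al) := by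
  refine Summable.of_nonneg_of_le (fun j => nr_nonneg _) (fun j => ?_)
    (geo_summable.mul_left ((n : ℝ) * 2))
  refine (nr_high j n).trans ?_
  have h1 := div_bound (a := 0) (b := j * (j !)) (c := j) (by
    have := Nat.factorial_pos j
    nlinarith)
  rw [pow_zero] at h1
  calc (n : ℝ) * 2 / 2 ^ (j * (j !)) = (n * 2) * (1 / 2 ^ (j * (j !))) := by ring
    _ ≤ (n * 2) * (1 / 2) ^ j := mul_le_mul_of_nonneg_left h1 (by positivity)

lemma term_le {A : ℕ → ℝ} (hA : ∀ j, |A j| ≤ 1) (j n : ℕ) (x : ℝ) :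
    ‖A j * inc j n x‖ ≤ 2 * Real.pi * nr (Q j * n * al) := by
  rw [norm_mul, Real.norm_eq_abs, Real.norm_eq_abs]
  have h1 := abs_inc j n x
  have h2 := abs_nonneg (inc j n x)
  have h3 := hA j
  nlinarith

lemma term_summable {A : ℕ → ℝ} (hA : ∀ j, |A j| ≤ 1) (n : ℕ) (x : ℝ) :
    Summable fun j => A j * inc j n x :=
  Summable.of_norm_bounded ((nr_high_summable n).mul_left (2 * Real.pi)) fun j => term_le hA j n x

lemma S_zero (A : ℕ → ℝ) (x : ℝ) : S A 0 x = 0 := by
  simp [S, inc]

lemma S_succ {A : ℕ → ℝ} (hA : ∀ j, |A j| ≤ 1) (n : ℕ) (x : ℝ) :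
    S A (n + 1) x = S A n x + S A 1 (x + n * al) := by
  have h : ∀ j, A j * inc j (n + 1) x = A j * inc j n x + A j * inc j 1 (x + n * al) := by
    intro j
    unfold inc
    have : x + ((n + 1 : ℕ) : ℝ) * al = x + n * al + ((1 : ℕ) : ℝ) * al := by push_cast; ring
    rw [this]
    ring
  unfold S
  rw [tsum_congr h, (term_summable hA n x).tsum_add (term_summable hA 1 _)]
  push_cast
  ring

lemma inc_per (j n : ℕ) (x : ℝ) : inc j n (x + 1) = inc j n x := by
  unfold inc
  have h1 : 2 * Real.pi * (Q j * (x + 1 + n * al)) = 2 * Real.pi * (Q j * (x + n * al)) +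
      (Q j : ℕ) * (2 * Real.pi) := by ring
  have h2 : 2 * Real.pi * (Q j * (x + 1)) = 2 * Real.pi * (Q j * x) + (Q j : ℕ) * (2 * Real.pi) := by
    ring
  rw [h1, h2, Real.cos_add_nat_mul_two_pi, Real.cos_add_nat_mul_two_pi]

lemma S_per (A : ℕ → ℝ) (n : ℕ) : Function.Periodic (S A n) 1 := by
  intro x
  unfold S
  simp only [inc_per]

lemma continuous_inc (j n : ℕ) : Continuous (inc j n) := by
  unfold inc
  fun_prop

lemma continuous_S {A : ℕ → ℝ} (hA : ∀ j, |A j| ≤ 1) (n : ℕ) : Continuous (S A n) := by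
  refine continuous_const.add (continuous_tsum (fun j => ?_)
    ((nr_high_summable n).mul_left (2 * Real.pi)) fun j x => term_le hA j n x)
  exact continuous_const.mul (continuous_inc j n)

/-- the first increment as a sinusoid -/
lemma inc_one (j : ℕ) (x : ℝ) : inc j 1 x =
    (-2 * Real.sin (Real.pi * (Q j * al - round (Q j * al)))) *
      Real.sin (2 * Real.pi * Q j * x + Real.pi * (Q j * al - round (Q j * al))) := by
  unfold inc
  set z := round ((Q j : ℝ) * al) with hz
  have h1 : Real.cos (2 * Real.pi * (Q j * (x + ((1 : ℕ) : ℝ) * al))) =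
      Real.cos (2 * Real.pi * Q j * x + 2 * (Real.pi * (Q j * al - z))) := by
    have : 2 * Real.pi * (Q j * (x + ((1 : ℕ) : ℝ) * al)) =
        2 * Real.pi * Q j * x + 2 * (Real.pi * (Q j * al - z)) + z * (2 * Real.pi) := by
      push_cast
      ring
    rw [this, Real.cos_add_int_mul_two_pi]
  have h2 : 2 * Real.pi * (Q j * x) = 2 * Real.pi * Q j * x := by ring
  rw [h1, h2, Real.cos_sub_cos]
  have h3 : (2 * Real.pi * Q j * x + 2 * (Real.pi * (Q j * al - z)) + 2 * Real.pi * Q j * x) / 2 =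
      2 * Real.pi * Q j * x + Real.pi * (Q j * al - z) := by ring
  have h4 : (2 * Real.pi * Q j * x + 2 * (Real.pi * (Q j * al - z)) - 2 * Real.pi * Q j * x) / 2 =
      Real.pi * (Q j * al - z) := by ring
  rw [h3, h4]
  ring

lemma contDiff_S {A : ℕ → ℝ} (hA : ∀ j, |A j| ≤ 1) : ContDiff ℝ ∞ (S A 1) := by
  have hf : ∀ j x, A j * inc j 1 x =
      (A j * (-2 * Real.sin (Real.pi * (Q j * al - round (Q j * al))))) *
        Real.sin (2 * Real.pi * Q j * x + Real.pi * (Q j * al - round (Q j * al))) := by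
    intro j x
    rw [inc_one]
    ring
  have hsum : ContDiff ℝ ∞ fun x => ∑' j, A j * inc j 1 x := by
    simp only [hf]
    refine contDiff_tsum_of_eventually (N := ⊤) (fun j => ?_)
      (v := fun n j => ((2 * Real.pi) ^ (n + 1) * 2) * (1 / 2) ^ j)
      (fun n _ => geo_summable.mul_left _) fun n _ => ?_
    · fun_prop
    · rw [Nat.cofinite_eq_atTop]
      filter_upwards [eventually_ge_atTop (n + 1)] with j hj
      intro x
      refine (norm_iter_sin _ _ _ n x).trans ?_
      have h1 : |A j * (-2 * Real.sin (Real.pi * (Q j * al - round (Q j * al))))| ≤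
          2 * Real.pi * (2 / 2 ^ (j * (j !))) := by
        rw [abs_mul, abs_mul]
        have e1 : |Real.sin (Real.pi * (Q j * al - round (Q j * al)))| ≤
            Real.pi * nr (Q j * al) := by
          refine Real.abs_sin_le_abs.trans (le_of_eq ?_)
          rw [abs_mul, abs_of_pos Real.pi_pos]
          rfl
        have e2 : nr (Q j * al) ≤ 2 / 2 ^ (j * (j !)) := by
          have := nr_high j 1
          simpa using this
        have e3 : |(-2 : ℝ)| = 2 := by norm_num
        rw [e3]
        have e4 := hA j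
        have e5 := Real.pi_pos
        have e6 : Real.pi * nr (Q j * al) ≤ Real.pi * (2 / 2 ^ (j * (j !))) :=
          mul_le_mul_of_nonneg_left e2 e5.le
        have e7 := abs_nonneg (Real.sin (Real.pi * (Q j * al - round (Q j * al))))
        have e8 : |A j| * (2 * |Real.sin (Real.pi * (Q j * al - round (Q j * al)))|) ≤
            1 * (2 * |Real.sin (Real.pi * (Q j * al - round (Q j * al)))|) :=
          mul_le_mul_of_nonneg_right e4 (by positivity)
        linarith
      have h2 : |2 * Real.pi * (Q j : ℝ)| ^ n = (2 * Real.pi) ^ n * 2 ^ (n * (j !)) := by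
        rw [abs_of_nonneg (by positivity), mul_pow, cast_Q, ← pow_mul, mul_comm (j !) n]
      rw [h2]
      have h3 : (2 : ℝ) ^ (n * (j !)) / 2 ^ (j * (j !)) ≤ (1 / 2) ^ j := by
        apply div_bound
        have h4 : j ≤ (j !) := Nat.self_le_factorial j
        nlinarith
      calc (2 * Real.pi) ^ n * 2 ^ (n * (j !)) *
            |A j * (-2 * Real.sin (Real.pi * (Q j * al - round (Q j * al))))| ≤
          (2 * Real.pi) ^ n * 2 ^ (n * (j !)) * (2 * Real.pi * (2 / 2 ^ (j * (j !)))) :=
            mul_le_mul_of_nonneg_left h1 (by positivity)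
        _ = ((2 * Real.pi) ^ (n + 1) * 2) * (2 ^ (n * (j !)) / 2 ^ (j * (j !))) := by
            rw [pow_succ]
            ring
        _ ≤ _ := mul_le_mul_of_nonneg_left h3 (by positivity)
  exact contDiff_const.add hsum

/-! ### Dependence on the amplitudes -/

lemma continuous_S_amp {X : Type*} [TopologicalSpace X] {A : X → ℕ → ℝ}
    (hA : ∀ a j, |A a j| ≤ 1) (hc : ∀ j, Continuous fun a => A a j) (n : ℕ) (x : ℝ) :
    Continuous fun a => S (A a) n x := by
  refine continuous_const.add (continuous_tsum (fun j => (hc j).mul continuous_const)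
    ((nr_high_summable n).mul_left (2 * Real.pi)) fun j a => term_le (hA a) j n x)

/-! ### Special times -/

/-- At the times `Q k` all Birkhoff sums are close to the translation by `Q k * ga`. -/
lemma S_Q {A : ℕ → ℝ} (hA : ∀ j, |A j| ≤ 1) {k : ℕ} (hk : 3 ≤ k) (x : ℝ) :
    |S A (Q k) x - Q k * ga| ≤ 2 * Real.pi * ∑' j, nr (Q j * Q k * al) := by
  unfold S
  rw [add_sub_cancel_left, ← tsum_mul_left, ← Real.norm_eq_abs]
  exact tsum_of_norm_bounded ((M_summable hk).mul_left (2 * Real.pi)).hasSum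
    fun j => term_le hA j (Q k) x

/-- At the times `NN k` all Birkhoff sums are determined by the frequency `k`. -/
lemma S_N {A : ℕ → ℝ} (hA : ∀ j, |A j| ≤ 1) {k : ℕ} (hk : 3 ≤ k) (x : ℝ) :
    |S A (NN k) x - NN k * ga - A k * inc k (NN k) x| ≤
      2 * Real.pi * ∑' j, if j = k then 0 else nr (Q j * NN k * al) := by
  have h1 : ∑' j, A j * inc j (NN k) x = A k * inc k (NN k) x +
      ∑' j, if j = k then 0 else A j * inc j (NN k) x := by
    rw [(term_summable hA (NN k) x).tsum_eq_add_tsum_ite k]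
  unfold S
  rw [add_sub_cancel_left, h1, add_sub_cancel_left, ← tsum_mul_left, ← Real.norm_eq_abs]
  refine tsum_of_norm_bounded ((N_summable hk).mul_left (2 * Real.pi)).hasSum fun j => ?_
  split_ifs with h
  · simp
  · exact term_le hA j (NN k) x

/-- the increment of the frequency `k` at the time `NN k` -/
lemma inc_N {k : ℕ} (hk : 3 ≤ k) (x : ℝ) :
    |inc k (NN k) x + 2 * Real.cos (2 * Real.pi * (Q k * x))| ≤ 2 * Real.pi * (1 / 2) ^ k := by
  unfold inc
  have h1 : 2 * Real.pi * (Q k * (x + NN k * al)) =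
      2 * Real.pi * ((Q k * x + 1 / 2) + (Q k * NN k * al - 1 / 2)) := by ring
  have h2 : Real.cos (2 * Real.pi * (Q k * x + 1 / 2)) = - Real.cos (2 * Real.pi * (Q k * x)) := by
    have : 2 * Real.pi * (Q k * x + 1 / 2) = 2 * Real.pi * (Q k * x) + Real.pi := by ring
    rw [this, Real.cos_add_pi]
  have h3 := cos_nr (Q k * x + 1 / 2) (Q k * NN k * al - 1 / 2)
  rw [h2] at h3
  rw [h1]
  have h4 : Real.cos (2 * Real.pi * ((Q k * x + 1 / 2) + (Q k * NN k * al - 1 / 2))) -
      Real.cos (2 * Real.pi * (Q k * x)) + 2 * Real.cos (2 * Real.pi * (Q k * x)) =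
      Real.cos (2 * Real.pi * ((Q k * x + 1 / 2) + (Q k * NN k * al - 1 / 2))) -
      -Real.cos (2 * Real.pi * (Q k * x)) := by ring
  rw [h4]
  exact h3.trans (mul_le_mul_of_nonneg_left (N_half hk) (by positivity))

end Pool.Agent.Y567.NC
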