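import Mathlib
import Pool.Agent.Y567.NC.Fun
import Pool.Agent.Y567.NC.Four

/-!
# Iterates of the skew translations
-/

set_option autoImplicit false

open Filter Topology MeasureTheory Set
open scoped ContDiff Manifold

namespace Pool.Agent.Y567.NC

open Pool.Agent.Helper449.RC (T2 toT2)

noncomputable instance : MetricSpace T2 := inferInstanceAs (MetricSpace (Fin 2 → AC))

lemma nr_eq (t : ℝ) : nr t = ‖((t : ℝ) : AC)‖ := (UnitAddCircle.norm_eq).symm

lemma nr_add (s t : ℝ) : nr (s + t) ≤ nr s + nr t := by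
  rw [nr_eq, nr_eq, nr_eq, AddCircle.coe_add]
  exact norm_add_le _ _

lemma nr_abs (t : ℝ) : nr t ≤ |t| := by
  have := nr_le t 0
  simpa using this

/-- the map with amplitudes `A` -/
noncomputable def TA (A : ℕ → ℝ) : T2 → T2 := sk al (S A 1) (S_per A 1)

lemma TA_iter {A : ℕ → ℝ} (hA : ∀ j, |A j| ≤ 1) (n : ℕ) (p : T2) :
    (TA A)^[n] p = sk (n * al) (S A n) (S_per A n) p := by
  induction n with
  | zero =>
    rw [Function.iterate_zero, id]
    rw [sk_congr (d := 0) (v := fun _ => 0) _ (fun _ => rfl) (by simp) (fun x => S_zero A x)]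
    exact (sk_id _ (fun _ => rfl) p).symm
  | succ n ih =>
    rw [Function.iterate_succ_apply', ih, TA, sk_comp]
    refine sk_congr _ _ ?_ (fun x => ?_) p
    · push_cast
      ring
    · exact (S_succ hA n x).symm

lemma dist_sk {c c' : ℝ} {u u' : ℝ → ℝ} (hu : Function.Periodic u 1) (hu' : Function.Periodic u' 1)
    {e : ℝ} (h0 : nr (c - c') ≤ e) (h1 : ∀ x, nr (u x - u' x) ≤ e) (p : T2) :
    dist (sk c u hu p) (sk c' u' hu' p) ≤ e := by
  obtain ⟨w, rfl⟩ := toT2_surj p
  have he : 0 ≤ e := (nr_nonneg _).trans h0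
  refine (dist_pi_le_iff he).2 fun i => ?_
  fin_cases i
  · show dist (((w 0 : ℝ) : AC) + (c : AC)) (((w 0 : ℝ) : AC) + (c' : AC)) ≤ e
    rw [dist_add_left, dist_eq_norm, ← AddCircle.coe_sub, ← nr_eq]
    exact h0
  · show dist (((w 1 : ℝ) : AC) + ((u (w 0) : ℝ) : AC)) (((w 1 : ℝ) : AC) + ((u' (w 0) : ℝ) : AC)) ≤ e
    rw [dist_add_left, dist_eq_norm, ← AddCircle.coe_sub, ← nr_eq]
    exact h1 _

lemma dist_sk_id {c : ℝ} {u : ℝ → ℝ} (hu : Function.Periodic u 1)
    {e : ℝ} (h0 : nr c ≤ e) (h1 : ∀ x, nr (u x) ≤ e) (p : T2) :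
    dist (sk c u hu p) p ≤ e := by
  have h := dist_sk hu (u' := fun _ => 0) (fun _ => rfl) (c' := 0) (e := e) (by simpa using h0)
    (fun x => by simpa using h1 x) p
  have hid : sk 0 (fun _ : ℝ => (0 : ℝ)) (fun _ => rfl) p = p := sk_id _ (fun _ => rfl) p
  rw [hid] at h
  exact h

/-- the skew translation as a continuous map -/
noncomputable def skC (c : ℝ) (u : ℝ → ℝ) (hu : Function.Periodic u 1) (hc : Continuous u) :
    C(T2, T2) := ⟨sk c u hu, continuous_sk hu hc⟩

lemma tendsto_of_dist {F : ℕ → C(T2, T2)} {G : C(T2, T2)} {e : ℕ → ℝ}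
    (he : Tendsto e atTop (𝓝 0)) (h : ∀ᶠ k in atTop, ∀ p, dist (F k p) (G p) ≤ e k) :
    Tendsto F atTop (𝓝 G) := by
  rw [ContinuousMap.tendsto_iff_tendstoUniformly]
  rw [Metric.tendstoUniformly_iff]
  intro ε hε
  filter_upwards [h, he.eventually (gt_mem_nhds hε)] with k hk hk' p
  rw [dist_comm]
  exact (hk p).trans_lt hk'

/-! ### Ergodicity -/

lemma S_Q_nr {A : ℕ → ℝ} (hA : ∀ j, |A j| ≤ 1) {k : ℕ} (hk : 3 ≤ k) (x : ℝ) :
    nr (S A (Q k) x - √2) ≤ 2 * Real.pi * (∑' j, nr (Q j * Q k * al)) + nr (Q k * ga - √2) := by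
  have : S A (Q k) x - √2 = (S A (Q k) x - Q k * ga) + (Q k * ga - √2) := by ring
  rw [this]
  exact (nr_add _ _).trans (add_le_add ((nr_abs _).trans (S_Q hA hk x)) le_rfl)

lemma ergodic_TA {A : ℕ → ℝ} (hA : ∀ j, |A j| ≤ 1) : Ergodic (TA A) nu := by
  have hv : Function.Periodic (fun _ : ℝ => √2) 1 := fun _ => rfl
  refine ergodic_of al √2 (S A 1) (fun _ => √2) (S_per A 1) (continuous_S hA 1) hv
    (fun _ => rfl) al_irr irrational_sqrt_two ?_
  intro s hs hsT
  let F : ℕ → C(T2, T2) := fun k =>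
    skC (Q k * al) (S A (Q k)) (S_per A (Q k)) (continuous_S hA (Q k))
  let G : C(T2, T2) := skC 0 (fun _ => √2) hv continuous_const
  have hFG : Tendsto F atTop (𝓝 G) := by
    refine tendsto_of_dist (e := fun k => (1 / 2) ^ k +
      (2 * Real.pi * (∑' j, nr (Q j * Q k * al)) + nr (Q k * ga - √2))) ?_ ?_
    · have h1 := tendsto_half 1
      have h2 := (M_sum.const_mul (2 * Real.pi)).add Q_ga_tendsto
      have h3 := h1.add h2
      simpa using h3
    · filter_upwards [eventually_ge_atTop 3] with k hk p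
      have e1 : 0 ≤ 2 * Real.pi * (∑' j, nr (Q j * Q k * al)) + nr (Q k * ga - √2) :=
        add_nonneg (mul_nonneg (by positivity) (tsum_nonneg fun _ => nr_nonneg _)) (nr_nonneg _)
      have e2 : (0 : ℝ) ≤ (1 / 2) ^ k := by positivity
      refine dist_sk _ _ ?_ (fun x => ?_) p
      · have := Q0 hk
        rw [sub_zero]
        linarith
      · have := S_Q_nr hA hk x
        linarith
  have hinv : ∀ n : ℕ, (TA A)^[n] ⁻¹' s = s := by
    intro n
    induction n with
    | zero => rfl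
    | succ n ih =>
      rw [Function.iterate_succ, preimage_comp, ih]
      exact hsT
  have h1 := tendsto_measure_symmDiff_preimage_nhds_zero hFG
    (Eventually.of_forall fun k => mp_sk (S_per A (Q k)) (continuous_S hA (Q k)))
    (mp_sk hv continuous_const) hs.nullMeasurableSet (measure_ne_top nu s)
  have h2 : ∀ k, (F k ⁻¹' s) = s := by
    intro k
    have : (F k : T2 → T2) = (TA A)^[Q k] := by
      funext p
      rw [TA_iter hA]
      rfl
    rw [this]
    exact hinv (Q k)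
  simp only [h2] at h1
  have h3 := (tendsto_nhds_unique h1 tendsto_const_nhds).symm
  rw [measure_symmDiff_eq_zero_iff] at h3
  exact h3.symm

/-! ### Correlations -/

theorem cor_tendsto (R : ℕ → C(T2, T2)) (hR : ∀ N, MeasurePreserving (R N) nu nu)
    (hlim : Tendsto R atTop (𝓝 (ContinuousMap.id T2))) (h : T2 → ℂ) (hh : MemLp h 2 nu) :
    Tendsto (fun N => ∫ p, inner ℂ (h (R N p)) (h p) ∂nu) atTop
      (𝓝 (∫ p, inner ℂ (h p) (h p) ∂nu)) := by
  have hid : MeasurePreserving (ContinuousMap.id T2) nu nu := MeasurePreserving.id nu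
  have h1 := Filter.Tendsto.compMeasurePreservingLp (E := ℂ) (p := 2)
    (tendsto_const_nhds (x := hh.toLp h)) hlim hR hid (by norm_num)
  have h2 := h1.inner (𝕜 := ℂ) (tendsto_const_nhds (x := hh.toLp h))
  have h3 : ∀ (R : C(T2, T2)) (hR : MeasurePreserving R nu nu),
      inner ℂ (Lp.compMeasurePreserving R hR (hh.toLp h)) (hh.toLp h) =
        ∫ p, inner ℂ (h (R p)) (h p) ∂nu := by
    intro R hR
    rw [L2.inner_def]
    refine integral_congr_ae ?_
    filter_upwards [Lp.coeFn_compMeasurePreserving (hh.toLp h) hR, hh.coeFn_toLp,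
      hR.quasiMeasurePreserving.ae hh.coeFn_toLp] with p hp1 hp2 hp3
    rw [hp1, hp2]
    simp only [Function.comp]
    rw [hp3]
  simp only [h3] at h2
  exact h2

end Pool.Agent.Y567.NC
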