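import Mathlib
import Pool.Agent.Y567.NC.Conv

/-!
# Isomorphism of the skew translations
-/

set_option autoImplicit false

open Filter Topology MeasureTheory Set
open scoped ContDiff Manifold

namespace Pool.Agent.Y567.NC

open Pool.Agent.Helper449.RC (T2 toT2)

/-- the amplitudes of a sequence -/
noncomputable def amp (a : ℕ → ℝ) (k : ℕ) : ℝ := (1 - Real.cos (a k)) / 8

lemma amp_nonneg (a : ℕ → ℝ) (k : ℕ) : 0 ≤ amp a k := by
  unfold amp
  have := Real.cos_le_one (a k)
  linarith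

lemma amp_le (a : ℕ → ℝ) (k : ℕ) : amp a k ≤ 1 / 4 := by
  unfold amp
  have := Real.neg_one_le_cos (a k)
  linarith

lemma abs_amp (a : ℕ → ℝ) (k : ℕ) : |amp a k| ≤ 1 := by
  rw [abs_of_nonneg (amp_nonneg a k)]
  linarith [amp_le a k]

lemma amp_sub (a b : ℕ → ℝ) (k : ℕ) : |amp a k - amp b k| ≤ |a k - b k| := by
  unfold amp
  have h := abs_cos_sub_cos_le (b k) (a k)
  have h1 : (1 - Real.cos (a k)) / 8 - (1 - Real.cos (b k)) / 8 =
      (Real.cos (b k) - Real.cos (a k)) / 8 := by ring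
  rw [h1, abs_div, abs_of_pos (by norm_num : (0 : ℝ) < 8), abs_sub_comm (a k)]
  have := abs_nonneg (Real.cos (b k) - Real.cos (a k))
  linarith

/-- the diffeomorphism of a sequence -/
noncomputable abbrev T (a : ℕ → ℝ) : T2 → T2 := TA (amp a)

/-! ### Close sequences give conjugate maps -/

/-- the conjugating cocycle -/
noncomputable def cj (x y : ℕ → ℝ) (t : ℝ) : ℝ :=
  ∑' j, (amp y j - amp x j) * Real.cos (2 * Real.pi * (Q j * t))

lemma cj_bound (x y : ℕ → ℝ) (j : ℕ) (t : ℝ) :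
    ‖(amp y j - amp x j) * Real.cos (2 * Real.pi * (Q j * t))‖ ≤ |x j - y j| := by
  rw [norm_mul, Real.norm_eq_abs, Real.norm_eq_abs]
  have h1 := amp_sub y x j
  rw [abs_sub_comm (y j)] at h1
  have h2 := Real.abs_cos_le_one (2 * Real.pi * (Q j * t))
  have h3 := abs_nonneg (amp y j - amp x j)
  have h4 := abs_nonneg (Real.cos (2 * Real.pi * (Q j * t)))
  nlinarith

lemma cj_per (x y : ℕ → ℝ) : Function.Periodic (cj x y) 1 := by
  intro t
  unfold cj
  refine tsum_congr fun j => ?_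
  have h2 : 2 * Real.pi * (Q j * (t + 1)) = 2 * Real.pi * (Q j * t) + (Q j : ℕ) * (2 * Real.pi) := by
    ring
  rw [h2, Real.cos_add_nat_mul_two_pi]

lemma cj_cont {x y : ℕ → ℝ} (h : Summable fun n => |x n - y n|) : Continuous (cj x y) := by
  refine continuous_tsum (fun j => ?_) h fun j t => cj_bound x y j t
  fun_prop

lemma cj_eq {x y : ℕ → ℝ} (h : Summable fun n => |x n - y n|) (t : ℝ) :
    S (amp x) 1 t + cj x y (t + al) = cj x y t + S (amp y) 1 t := by
  have s1 : Summable fun j => (amp y j - amp x j) * Real.cos (2 * Real.pi * (Q j * (t + al))) :=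
    Summable.of_norm_bounded h fun j => cj_bound x y j _
  have s2 : Summable fun j => (amp y j - amp x j) * Real.cos (2 * Real.pi * (Q j * t)) :=
    Summable.of_norm_bounded h fun j => cj_bound x y j _
  have s3 := term_summable (abs_amp x) 1 t
  have s4 := term_summable (abs_amp y) 1 t
  have h1 : (∑' j, amp x j * inc j 1 t) + cj x y (t + al) =
      cj x y t + ∑' j, amp y j * inc j 1 t := by
    unfold cj
    rw [← s3.tsum_add s1, ← s2.tsum_add s4]
    refine tsum_congr fun j => ?_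
    unfold inc
    push_cast
    ring_nf
  unfold S
  linarith

lemma sk_comp_id {u u' : ℝ → ℝ} (hu : Function.Periodic u 1) (hu' : Function.Periodic u' 1)
    (h : ∀ t, u t + u' t = 0) (p : T2) : sk 0 u' hu' (sk 0 u hu p) = p := by
  have h0 : Function.Periodic (fun _ : ℝ => (0 : ℝ)) 1 := fun _ => rfl
  rw [sk_comp]
  refine (sk_congr _ h0 (by ring) (fun t => ?_) p).trans (sk_id h0 (fun _ => rfl) p)
  show u t + u' (t + 0) = 0
  rw [add_zero]
  exact h t

lemma cj_per' (x y : ℕ → ℝ) : Function.Periodic (fun t => - cj x y t) 1 := by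
  intro t
  show - cj x y (t + 1) = - cj x y t
  rw [cj_per x y t]

/-- The maps are conjugate by a homeomorphism which is a vertical translation. -/
theorem conj_of_close {x y : ℕ → ℝ} (h : Summable fun n => |x n - y n|) :
    ∃ (u u' : ℝ → ℝ) (hu : Function.Periodic u 1) (hu' : Function.Periodic u' 1),
      Continuous u ∧ Continuous u' ∧ (∀ p, sk 0 u' hu' (sk 0 u hu p) = p) ∧
      (∀ p, sk 0 u hu (sk 0 u' hu' p) = p) ∧ ∀ p, sk 0 u hu (T x p) = T y (sk 0 u hu p) := by
  refine ⟨cj x y, fun t => - cj x y t, cj_per x y, cj_per' x y, cj_cont h, (cj_cont h).neg,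
    fun p => sk_comp_id _ _ (fun t => by ring) p, fun p => sk_comp_id _ _ (fun t => by ring) p, ?_⟩
  intro p
  unfold T TA
  rw [sk_comp, sk_comp]
  refine sk_congr _ _ (by ring) (fun t => ?_) p
  show S (amp x) 1 t + cj x y (t + al) = cj x y t + S (amp y) 1 (t + 0)
  rw [add_zero]
  exact cj_eq h t

/-! ### The times `NN k` -/

/-- the error term -/
noncomputable def err (k : ℕ) : ℝ :=
  2 * Real.pi * (∑' j, if j = k then 0 else nr (Q j * NN k * al)) +
    (4 + 2 * Real.pi + 1) * (1 / 2) ^ k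

lemma err_tendsto : Tendsto err atTop (𝓝 0) := by
  have h := (N_sum.const_mul (2 * Real.pi)).add (tendsto_half (4 + 2 * Real.pi + 1))
  rw [mul_zero, add_zero] at h
  exact h

lemma sum_nonneg (k : ℕ) : 0 ≤ ∑' j, if j = k then 0 else nr (Q j * NN k * al) := by
  refine tsum_nonneg fun j => ?_
  split_ifs
  · exact le_rfl
  · exact nr_nonneg _

/-- Birkhoff sums at the times `NN k` modulo one -/
lemma S_N_nr {A : ℕ → ℝ} (hA : ∀ j, |A j| ≤ 1) {k : ℕ} (hk : 4 ≤ k) (x : ℝ) :
    nr (S A (NN k) x + 2 * A k * Real.cos (2 * Real.pi * (Q k * x))) ≤ err k := by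
  have e : S A (NN k) x + 2 * A k * Real.cos (2 * Real.pi * (Q k * x)) =
      (NN k * ga + (S A (NN k) x - NN k * ga - A k * inc k (NN k) x)) +
        A k * (inc k (NN k) x + 2 * Real.cos (2 * Real.pi * (Q k * x))) := by ring
  rw [e]
  refine (nr_add _ _).trans ((add_le_add (nr_add _ _) le_rfl).trans ?_)
  have h1 := N_ga hk
  have h2 := (nr_abs _).trans (S_N hA (by omega : 3 ≤ k) x)
  have h3 : nr (A k * (inc k (NN k) x + 2 * Real.cos (2 * Real.pi * (Q k * x)))) ≤
      2 * Real.pi * (1 / 2) ^ k := by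
    refine (nr_abs _).trans ?_
    rw [abs_mul]
    have h4 := inc_N (by omega : 3 ≤ k) x
    have h5 := hA k
    have h6 := abs_nonneg (inc k (NN k) x + 2 * Real.cos (2 * Real.pi * (Q k * x)))
    nlinarith [abs_nonneg (A k)]
  have h7 : (0 : ℝ) ≤ (1 / 2) ^ k := by positivity
  unfold err
  linarith

lemma N_dist {A : ℕ → ℝ} (hA : ∀ j, |A j| ≤ 1) {k : ℕ} (hk : 4 ≤ k) (p : T2) :
    dist (sk (NN k * al) (S A (NN k)) (S_per A (NN k)) p) p ≤ err k + 2 * |A k| := by
  have h7 : (0 : ℝ) ≤ (1 / 2) ^ k := by positivity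
  have h8 := sum_nonneg k
  have h9 := Real.pi_pos
  refine dist_sk_id _ ?_ (fun x => ?_) p
  · have := N0 (by omega : 3 ≤ k)
    have h10 := abs_nonneg (A k)
    have h11 : 0 ≤ 2 * Real.pi * ∑' j, (if j = k then 0 else nr (Q j * NN k * al)) :=
      mul_nonneg (by positivity) h8
    have h12 : 0 ≤ Real.pi * (1 / 2) ^ k := by positivity
    unfold err
    linarith
  · have e : S A (NN k) x = (S A (NN k) x + 2 * A k * Real.cos (2 * Real.pi * (Q k * x))) +
        (-(2 * A k * Real.cos (2 * Real.pi * (Q k * x)))) := by ring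
    rw [e]
    refine (nr_add _ _).trans (add_le_add (S_N_nr hA hk x) ((nr_abs _).trans ?_))
    rw [abs_neg, abs_mul, abs_mul, abs_of_pos (by norm_num : (0 : ℝ) < 2)]
    have := Real.abs_cos_le_one (2 * Real.pi * (Q k * x))
    have h10 := abs_nonneg (A k)
    nlinarith

end Pool.Agent.Y567.NC
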