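import Mathlib
import Pool.Agent.H468R2.MA.P_T_BF
import Pool.Agent.H468R2.MA.P_T_C
import Pool.Agent.H468R2.MA.P_T_CH
import Pool.Agent.H468R2.MA.P_T_LOC
import Pool.Agent.H468R2.MA.P_T_SC
import Pool.Agent.H468R2.MA.P_T_GEN

/-!
# Generic ergodicity of the translation action of `ℓ¹` on `ℝ^ℕ`
-/

set_option autoImplicit false

open Filter Topology

namespace Pool.Agent.Y567.NC

open Pool.Agent.H468R2.MA

theorem erg : T_ERG :=
  t_T_ERG (t_T_C t_T_SC (t_T_LOC t_T_SC (t_T_LOC1 t_T_SC))) t_T_CH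

/-- A Borel map of `ℝ^ℕ` to binary relations on `ℕ` which is constant up to isomorphism on the classes
of `ℓ¹` takes isomorphic values at some pair of sequences `x`, `y` such that `x k` is close to `0` and
`y k` is close to `π` for infinitely many `k`. -/
theorem gen_pair (F : (ℕ → ℝ) → ℕ → ℕ → Bool)
    (hF : ∀ i j, MeasurableSet {x : ℕ → ℝ | F x i j = true})
    (hinv : ∀ x y : ℕ → ℝ, Summable (fun n => |x n - y n|) →
      ∃ σ : Equiv.Perm ℕ, ∀ i j : ℕ, F x i j = F y (σ i) (σ j)) :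
    ∃ x y : ℕ → ℝ, (∀ N : ℕ, ∃ k, N ≤ k ∧ |x k| ≤ 1 / (N + 1) ∧ |y k - Real.pi| ≤ 1 / (N + 1)) ∧
      ∃ σ : Equiv.Perm ℕ, ∀ i j : ℕ, F x i j = F y (σ i) (σ j) := by
  have hm : Hm (ρ := Unit) (k := fun _ => 2)
      (fun x (_ : Unit) (a : Fin 2 → ℕ) => F x (a 0) (a 1) = true) := by
    refine ⟨fun _ a => hF (a 0) (a 1), fun x y hxy => ?_⟩
    obtain ⟨σ, hσ⟩ := hinv x y hxy
    exact ⟨σ, fun _ a => by
      show F y (σ (a 0)) (σ (a 1)) = true ↔ F x (a 0) (a 1) = true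
      rw [hσ]⟩
  obtain ⟨C, hC, hC2⟩ := erg Unit (fun _ => 2) _ hm
  obtain ⟨x, hx, y, hy, hxy⟩ := t_T_GEN C hC
  refine ⟨x, y, hxy, ?_⟩
  obtain ⟨π, hπ⟩ := hC2 x hx y hy
  refine ⟨π, fun i j => ?_⟩
  have := hπ () ![i, j]
  simp only [Matrix.cons_val_zero, Matrix.cons_val_one] at this
  rw [Bool.eq_iff_iff]
  exact this.symm

end Pool.Agent.Y567.NC
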