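import Mathlib
import Pool.Agent.Y567.NC.Inv

/-!
# Rigidity times distinguish the skew translations
-/

set_option autoImplicit false

open Filter Topology MeasureTheory Set
open scoped ContDiff Manifold

namespace Pool.Agent.Y567.NC

open Pool.Agent.Helper449.RC (T2 toT2)

/-- the vertical character -/
noncomputable def gch (p : T2) : ℂ := fourier 1 ((p 1 : AC))

lemma gch_cont : Continuous gch := by
  have h1 : Continuous fun p : T2 => (p 1 : AC) := continuous_apply (1 : Fin 2)
  exact (fourier (T := (1 : ℝ)) 1).continuous.comp h1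

lemma gch_norm (p : T2) : ‖gch p‖ = 1 := by
  unfold gch
  rw [fourier_apply]
  exact Circle.norm_coe _

/-- the correlation of the character with its image -/
lemma inner_gch {c : ℝ} {u : ℝ → ℝ} (hu : Function.Periodic u 1) (w : Pool.Agent.Helper206.Cover.E2) :
    (inner ℂ (gch (sk c u hu (toT2 w))) (gch (toT2 w))).re = Real.cos (2 * Real.pi * u (w 0)) := by
  have h1 : gch (sk c u hu (toT2 w)) =
      Complex.exp (2 * Real.pi * Complex.I * ((1 : ℤ) * u (w 0))) * gch (toT2 w) := by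
    unfold gch
    rw [sk_one_apply, fourier_shift]
    rfl
  have h2 : (starRingEnd ℂ) (gch (toT2 w)) * gch (toT2 w) = 1 := by
    rw [← Complex.normSq_eq_conj_mul_self, Complex.normSq_eq_norm_sq, gch_norm]
    simp
  rw [RCLike.inner_apply', h1, map_mul, mul_assoc, h2, mul_one, Complex.conj_re]
  have h3 : (2 * Real.pi * Complex.I * (((1 : ℤ) : ℂ) * (u (w 0) : ℂ)) : ℂ) =
      ((2 * Real.pi * u (w 0) : ℝ) : ℂ) * Complex.I := by
    push_cast
    ring
  rw [h3, Complex.exp_ofReal_mul_I_re]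

/-- integral of a character of the base -/
lemma int_base (m : ℤ) (hm : m ≠ 0) : ∫ p : T2, (fourier m ((p 0 : AC)) : ℂ) ∂nu = 0 := by
  have h0 : Function.Periodic (fun _ : ℝ => (0 : ℝ)) 1 := fun _ => rfl
  have hc : Continuous fun p : T2 => (fourier m ((p 0 : AC)) : ℂ) := by
    have h1 : Continuous fun p : T2 => (p 0 : AC) := continuous_apply (0 : Fin 2)
    exact (fourier (T := (1 : ℝ)) m).continuous.comp h1
  have h := int_zero (mp_sk (c := al) h0 continuous_const)
    (F := fun p : T2 => (fourier m ((p 0 : AC)) : ℂ)) (g := fun _ => 1)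
    (by simpa using hc.aestronglyMeasurable) _ (exp_ne_one hm al_irr)
    (fun p => by
      show (fourier m (sk al (fun _ => 0) h0 p 0) : ℂ) = _
      rw [sk_zero_apply, fourier_shift]) (by rfl)
  simpa using h

/-- upper bound for the correlation -/
lemma cor_pointwise {A : ℕ → ℝ} (hA : ∀ j, |A j| ≤ 1) {k : ℕ} (hk : 4 ≤ k)
    (w : Pool.Agent.Helper206.Cover.E2) :
    Real.cos (2 * Real.pi * S A (NN k) (w 0)) ≤
      - (fourier (2 * (Q k : ℤ)) (((w 0 : ℝ)) : AC) : ℂ).re +
        2 * Real.pi * (err k + |1 / 2 - 2 * A k|) := by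
  set c : ℝ := Real.cos (2 * Real.pi * (Q k * w 0)) with hc
  have h1 : (fourier (2 * (Q k : ℤ)) (((w 0 : ℝ)) : AC) : ℂ).re = 2 * c ^ 2 - 1 := by
    rw [fourier_coe_apply]
    have : (2 * Real.pi * Complex.I * ((2 * (Q k : ℤ) : ℤ) : ℂ) * ((w 0 : ℝ) : ℂ) / ((1 : ℝ) : ℂ) : ℂ) =
        ((2 * (2 * Real.pi * (Q k * w 0)) : ℝ) : ℂ) * Complex.I := by
      push_cast
      ring
    rw [this, Complex.exp_ofReal_mul_I_re, Real.cos_two_mul]
  rw [h1]
  have h2 : nr (S A (NN k) (w 0) - (-(c / 2))) ≤ err k + |1 / 2 - 2 * A k| := by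
    have e : S A (NN k) (w 0) - (-(c / 2)) = (S A (NN k) (w 0) + 2 * A k * c) +
        (1 / 2 - 2 * A k) * c := by ring
    rw [e]
    refine (nr_add _ _).trans (add_le_add (S_N_nr hA hk (w 0)) ((nr_abs _).trans ?_))
    rw [abs_mul]
    have := Real.abs_cos_le_one (2 * Real.pi * (Q k * w 0))
    have h3 := abs_nonneg (1 / 2 - 2 * A k)
    nlinarith
  have h3 := cos_nr (-(c / 2)) (S A (NN k) (w 0) - (-(c / 2)))
  rw [add_sub_cancel] at h3
  have h4 : Real.cos (2 * Real.pi * (-(c / 2))) ≤ 1 - 2 * c ^ 2 := by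
    have e : 2 * Real.pi * (-(c / 2)) = -(Real.pi * c) := by ring
    rw [e]
    have hc1 : |c| ≤ 1 := Real.abs_cos_le_one _
    have h5 : |-(Real.pi * c)| ≤ Real.pi := by
      rw [abs_neg, abs_mul, abs_of_pos Real.pi_pos]
      nlinarith [Real.pi_pos]
    have h6 := Real.cos_le_one_sub_mul_cos_sq h5
    have h7 : 2 / Real.pi ^ 2 * (-(Real.pi * c)) ^ 2 = 2 * c ^ 2 := by
      have := Real.pi_ne_zero
      field_simp
    linarith
  have h5 : 2 * Real.pi * nr (S A (NN k) (w 0) - (-(c / 2))) ≤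
      2 * Real.pi * (err k + |1 / 2 - 2 * A k|) := mul_le_mul_of_nonneg_left h2 (by positivity)
  have h6 := (abs_le.1 h3).2
  linarith

lemma cor_integral {A : ℕ → ℝ} (hA : ∀ j, |A j| ≤ 1) {k : ℕ} (hk : 4 ≤ k) :
    (∫ p, inner ℂ (gch (sk (NN k * al) (S A (NN k)) (S_per A (NN k)) p)) (gch p) ∂nu : ℂ).re ≤
      2 * Real.pi * (err k + |1 / 2 - 2 * A k|) := by
  have hcs := continuous_sk (c := NN k * al) (S_per A (NN k)) (continuous_S hA (NN k))
  have hcont : Continuous fun p => (inner ℂ (gch (sk (NN k * al) (S A (NN k)) (S_per A (NN k)) p))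
      (gch p) : ℂ) := (gch_cont.comp hcs).inner gch_cont
  have hcf : Continuous fun p : T2 => (fourier (2 * (Q k : ℤ)) ((p 0 : AC)) : ℂ) := by
    have h1 : Continuous fun p : T2 => (p 0 : AC) := continuous_apply (0 : Fin 2)
    exact (fourier (T := (1 : ℝ)) (2 * (Q k : ℤ))).continuous.comp h1
  have hint : Integrable (fun p => (inner ℂ (gch (sk (NN k * al) (S A (NN k)) (S_per A (NN k)) p))
      (gch p) : ℂ)) nu := hcont.integrable_of_hasCompactSupport
        (HasCompactSupport.of_compactSpace _)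
  have hint2 : Integrable (fun p : T2 => (fourier (2 * (Q k : ℤ)) ((p 0 : AC)) : ℂ)) nu :=
    hcf.integrable_of_hasCompactSupport (HasCompactSupport.of_compactSpace _)
  have e1 : (∫ p, inner ℂ (gch (sk (NN k * al) (S A (NN k)) (S_per A (NN k)) p)) (gch p) ∂nu : ℂ).re
      = ∫ p, (inner ℂ (gch (sk (NN k * al) (S A (NN k)) (S_per A (NN k)) p)) (gch p) : ℂ).re ∂nu :=
    (integral_re hint).symm
  have e2 : ∫ p : T2, (fourier (2 * (Q k : ℤ)) ((p 0 : AC)) : ℂ).re ∂nu = 0 := by
    have h1 : ∫ p : T2, (fourier (2 * (Q k : ℤ)) ((p 0 : AC)) : ℂ).re ∂nu =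
        (∫ p : T2, (fourier (2 * (Q k : ℤ)) ((p 0 : AC)) : ℂ) ∂nu).re := integral_re hint2
    rw [h1, int_base]
    · rfl
    · have : (Q k : ℤ) ≠ 0 := by
        unfold Q
        positivity
      omega
  rw [e1]
  have h2 : ∫ p, (inner ℂ (gch (sk (NN k * al) (S A (NN k)) (S_per A (NN k)) p)) (gch p) : ℂ).re ∂nu
      ≤ ∫ p : T2, (- (fourier (2 * (Q k : ℤ)) ((p 0 : AC)) : ℂ).re +
        2 * Real.pi * (err k + |1 / 2 - 2 * A k|)) ∂nu := by
    refine integral_mono hint.re ((hint2.re.neg).add (integrable_const _)) fun p => ?_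
    obtain ⟨w, rfl⟩ := toT2_surj p
    show (inner ℂ (gch (sk (NN k * al) (S A (NN k)) (S_per A (NN k)) (toT2 w))) (gch (toT2 w))).re ≤ _
    rw [inner_gch]
    exact cor_pointwise hA hk w
  refine h2.trans (le_of_eq ?_)
  have e3 : Integrable (fun p : T2 => - (fourier (2 * (Q k : ℤ)) ((p 0 : AC)) : ℂ).re) nu :=
    hint2.re.neg
  have e4 : ∫ p : T2, - (fourier (2 * (Q k : ℤ)) ((p 0 : AC)) : ℂ).re ∂nu = 0 := by
    refine (integral_neg _).trans ?_
    rw [e2, neg_zero]
  have e5 := integral_add e3 (integrable_const (2 * Real.pi * (err k + |1 / 2 - 2 * A k|)))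
  refine e5.trans ?_
  rw [e4]
  simp

/-- The maps of a generic pair of sequences are not isomorphic. -/
theorem not_iso {x y : ℕ → ℝ}
    (hxy : ∀ N : ℕ, ∃ k, N ≤ k ∧ |x k| ≤ 1 / (N + 1) ∧ |y k - Real.pi| ≤ 1 / (N + 1))
    {φ : T2 → T2} (hφ : MeasurePreserving φ nu nu) (h : φ ∘ T x =ᵐ[nu] T y ∘ φ) : False := by
  choose κ hκ1 hκ2 hκ3 using hxy
  have hκ : Tendsto κ atTop atTop := tendsto_atTop_mono hκ1 tendsto_id
  have hiter : ∀ n : ℕ, φ ∘ (T x)^[n] =ᵐ[nu] (T y)^[n] ∘ φ := by
    intro n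
    induction n with
    | zero => exact EventuallyEq.rfl
    | succ n ih =>
      have hT : MeasurePreserving (T x) nu nu := mp_sk _ (continuous_S (abs_amp x) 1)
      have h1 := hT.quasiMeasurePreserving.ae ih
      filter_upwards [h1, h] with p hp1 hp2
      simp only [Function.comp] at hp1 hp2 ⊢
      rw [Function.iterate_succ_apply, Function.iterate_succ_apply, hp1, hp2]
  have hax : Tendsto (fun N => amp x (κ N)) atTop (𝓝 0) := by
    have h1 : Tendsto (fun N => x (κ N)) atTop (𝓝 0) := by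
      refine squeeze_zero_norm (fun N => ?_) tendsto_one_div_add_atTop_nhds_zero_nat
      exact hκ2 N
    have h2 : Tendsto (fun N => (1 - Real.cos (x (κ N))) / 8) atTop (𝓝 ((1 - Real.cos 0) / 8)) :=
      (((Real.continuous_cos.tendsto 0).comp h1).const_sub 1).div_const 8
    simpa [amp] using h2
  have hay : Tendsto (fun N => amp y (κ N)) atTop (𝓝 (1 / 4)) := by
    have h0 : Tendsto (fun N => y (κ N) - Real.pi) atTop (𝓝 0) := by
      refine squeeze_zero_norm (fun N => ?_) tendsto_one_div_add_atTop_nhds_zero_nat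
      exact hκ3 N
    have h1 : Tendsto (fun N => y (κ N)) atTop (𝓝 Real.pi) := by
      have := h0.add_const Real.pi
      simpa using this
    have h2 : Tendsto (fun N => (1 - Real.cos (y (κ N))) / 8) atTop
        (𝓝 ((1 - Real.cos Real.pi) / 8)) :=
      (((Real.continuous_cos.tendsto Real.pi).comp h1).const_sub 1).div_const 8
    rw [Real.cos_pi] at h2
    have e : ((1 : ℝ) - -1) / 8 = 1 / 4 := by norm_num
    rw [e] at h2
    exact h2
  let R : ℕ → C(T2, T2) := fun N =>
    skC (NN (κ N) * al) (S (amp x) (NN (κ N))) (S_per (amp x) _) (continuous_S (abs_amp x) _)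
  have hRm : ∀ N, MeasurePreserving (R N) nu nu := fun N =>
    mp_sk _ (continuous_S (abs_amp x) _)
  have hR : Tendsto R atTop (𝓝 (ContinuousMap.id T2)) := by
    refine tendsto_of_dist (e := fun N => err (κ N) + 2 * |amp x (κ N)|) ?_ ?_
    · have := (err_tendsto.comp hκ).add (hax.abs.const_mul 2)
      simpa using this
    · filter_upwards [hκ.eventually_ge_atTop 4] with N hN p
      exact N_dist (abs_amp x) hN p
  have hgm : Measurable gch := gch_cont.measurable
  have hmem : MemLp (gch ∘ φ) 2 nu := by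
    refine MemLp.of_bound (hgm.comp hφ.measurable).aestronglyMeasurable 1 ?_
    exact Eventually.of_forall fun p => (gch_norm _).le
  have hc := cor_tendsto R hRm hR (gch ∘ φ) hmem
  have h1 : ∫ p, inner ℂ ((gch ∘ φ) p) ((gch ∘ φ) p) ∂nu = 1 := by
    have : ∀ p, inner ℂ ((gch ∘ φ) p) ((gch ∘ φ) p) = (1 : ℂ) := by
      intro p
      rw [inner_self_eq_norm_sq_to_K]
      simp only [Function.comp, gch_norm]
      simp
    simp only [this]
    simp
  rw [h1] at hc
  have h2 : ∀ N, ∫ p, inner ℂ ((gch ∘ φ) (R N p)) ((gch ∘ φ) p) ∂nu =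
      ∫ p, inner ℂ (gch (sk (NN (κ N) * al) (S (amp y) (NN (κ N))) (S_per (amp y) _) p)) (gch p) ∂nu := by
    intro N
    have hcs := continuous_sk (c := NN (κ N) * al) (S_per (amp y) (NN (κ N)))
      (continuous_S (abs_amp y) (NN (κ N)))
    have hcont : Continuous fun p => (inner ℂ
        (gch (sk (NN (κ N) * al) (S (amp y) (NN (κ N))) (S_per (amp y) _) p)) (gch p) : ℂ) :=
      (gch_cont.comp hcs).inner gch_cont
    have h3 : ∫ p, inner ℂ (gch (sk (NN (κ N) * al) (S (amp y) (NN (κ N))) (S_per (amp y) _) p))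
        (gch p) ∂nu = ∫ p, inner ℂ
          (gch (sk (NN (κ N) * al) (S (amp y) (NN (κ N))) (S_per (amp y) _) (φ p))) (gch (φ p)) ∂nu := by
      conv_lhs => rw [← hφ.map_eq]
      exact integral_map hφ.aemeasurable hcont.aestronglyMeasurable
    rw [h3]
    refine integral_congr_ae ?_
    filter_upwards [hiter (NN (κ N))] with p hp
    simp only [Function.comp] at hp ⊢
    rw [← TA_iter (abs_amp y), ← hp, TA_iter (abs_amp x)]
    rfl
  have h3 := (Complex.continuous_re.tendsto 1).comp hc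
  have h4 : Tendsto (fun N => 2 * Real.pi * (err (κ N) + |1 / 2 - 2 * amp y (κ N)|)) atTop (𝓝 0) := by
    have h5 := ((err_tendsto.comp hκ).add ((hay.const_mul 2).const_sub (1 / 2)).abs).const_mul
      (2 * Real.pi)
    have e : 2 * Real.pi * (0 + |(1 : ℝ) / 2 - 2 * (1 / 4)|) = 0 := by norm_num
    rw [e] at h5
    exact h5
  have h5 : (1 : ℂ).re ≤ 0 := by
    refine le_of_tendsto_of_tendsto h3 h4 ?_
    filter_upwards [hκ.eventually_ge_atTop 4] with N hN
    simp only [Function.comp]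
    have h6 := h2 N
    simp only [Function.comp] at h6
    rw [h6]
    exact cor_integral (abs_amp y) hN
  norm_num at h5

end Pool.Agent.Y567.NC
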