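import Mathlib
import Pool.Agent.Y567.NC.Erg
import Pool.Agent.Y567.NC.Rig

/-!
# Measure isomorphism of ergodic diffeomorphisms of the torus is not classifiable by countable structures
-/

set_option autoImplicit false

open Filter Topology MeasureTheory Set
open scoped ContDiff Manifold

namespace Pool.Agent.Y567.NC

open Pool.Agent.Helper449.RC (T2 toT2)
open Pool.Agent.Helper206.Cover (E2)

/-- the diffeomorphism of a sequence -/
noncomputable def D (a : ℕ → ℝ) : Diffeomorph (𝓡 2) (𝓡 2) T2 T2 ∞ where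
  toFun := T a
  invFun := sk (-al) (fun x => - S (amp a) 1 (x - al)) (per_inv (S_per (amp a) 1) al)
  left_inv p := sk_left_inv al _ (S_per (amp a) 1) p
  right_inv p := sk_right_inv al _ (S_per (amp a) 1) p
  contMDiff_toFun := contMDiff_sk _ (contDiff_S (abs_amp a))
  contMDiff_invFun := contMDiff_sk _
    ((contDiff_S (abs_amp a)).comp (contDiff_id.sub contDiff_const)).neg

lemma D_coe (a : ℕ → ℝ) : (⇑(D a) : T2 → T2) = T a := rfl

lemma mp_T (a : ℕ → ℝ) : MeasurePreserving (T a) nu nu := mp_sk _ (continuous_S (abs_amp a) 1)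

lemma continuous_T (p : T2) : Continuous fun a => T a p := by
  obtain ⟨w, rfl⟩ := toT2_surj p
  have h1 : Continuous fun a : ℕ → ℝ => S (amp a) 1 (w 0) := by
    refine continuous_S_amp abs_amp (fun j => ?_) 1 (w 0)
    unfold amp
    fun_prop
  refine continuous_pi fun i => ?_
  fin_cases i
  · exact continuous_const
  · have h2 : Continuous fun a : ℕ → ℝ =>
        (((w 1 : ℝ) : AC) + ((S (amp a) 1 (w 0) : ℝ) : AC)) :=
      continuous_const.add ((AddCircle.continuous_mk' (1 : ℝ)).comp h1)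
    exact h2

/-- the space of ergodic measure preserving diffeomorphisms -/
abbrev SE : Type := {T : Diffeomorph (𝓡 2) (𝓡 2) T2 T2 ∞ //
  MeasurePreserving (⇑T) nu nu ∧ Ergodic (⇑T) nu}

/-- the diffeomorphism of a sequence, in the space of ergodic ones -/
noncomputable def DE (a : ℕ → ℝ) : SE := ⟨D a, mp_T a, ergodic_TA (abs_amp a)⟩

theorem no_reduction (f : SE → (ℕ → ℕ → Bool))
    (hf : @Measurable SE (ℕ → ℕ → Bool) (MeasurableSpace.comap
      (fun T : SE => (⇑T.1 : T2 → T2)) (inferInstance : MeasurableSpace (T2 → T2)))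
      (inferInstance : MeasurableSpace (ℕ → ℕ → Bool)) f)
    (hred : ∀ S T : SE, (∃ φ ψ : T2 → T2, MeasurePreserving φ nu nu ∧ MeasurePreserving ψ nu nu ∧
      ψ ∘ φ =ᵐ[nu] id ∧ φ ∘ ψ =ᵐ[nu] id ∧ φ ∘ (⇑S.1) =ᵐ[nu] (⇑T.1) ∘ φ) ↔
      (∃ σ : Equiv.Perm ℕ, ∀ i j : ℕ, f S i j = f T (σ i) (σ j))) : False := by
  have hDE : @Measurable (ℕ → ℝ) SE _ (MeasurableSpace.comap
      (fun T : SE => (⇑T.1 : T2 → T2)) (inferInstance : MeasurableSpace (T2 → T2))) DE := by
    rw [measurable_comap_iff]
    refine measurable_pi_lambda _ fun p => ?_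
    exact (continuous_T p).measurable
  have hF : Measurable fun a => f (DE a) := @Measurable.comp _ _ _ _ (MeasurableSpace.comap
      (fun T : SE => (⇑T.1 : T2 → T2)) (inferInstance : MeasurableSpace (T2 → T2))) _ _ _ hf hDE
  obtain ⟨x, y, hxy, hσ⟩ := gen_pair (fun a => f (DE a))
    (fun i j => by
      have h1 : Measurable fun a => f (DE a) i j :=
        (measurable_pi_apply j).comp ((measurable_pi_apply i).comp hF)
      exact h1 (measurableSet_singleton true))
    (fun x y h => by
      obtain ⟨u, u', hu, hu', hc, hc', h1, h2, h3⟩ := conj_of_close h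
      refine (hred (DE x) (DE y)).1 ⟨sk 0 u hu, sk 0 u' hu', mp_sk hu hc, mp_sk hu' hc',
        Eventually.of_forall h1, Eventually.of_forall h2, Eventually.of_forall h3⟩)
  obtain ⟨φ, ψ, hφ, -, -, -, hc⟩ := (hred (DE x) (DE y)).2 hσ
  exact not_iso hxy hφ hc

end Pool.Agent.Y567.NC
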